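import Pool.Agent.H916R2.ExpZetaOne

/-!
Nonvanishing of the odd `Stickelberger` sums: for every odd Dirichlet character `χ` modulo `m`
there is a residue `a` with `∑ t, χ t * w (t * a) ≠ 0`, where `w b = 2 * b.val - m` for `b ≠ 0`
and `w 0 = 0`.
-/

namespace Pool.Agent.H916R2

open Complex Finset HurwitzZeta ZMod

/-- The (normalised, doubled) sawtooth on `ZMod m`: `2 b - m` for `b ≠ 0`, and `0` at `0`. -/
def saw {m : ℕ} (b : ZMod m) : ℤ := if b = 0 then 0 else 2 * (b.val : ℤ) - m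

lemma saw_zero {m : ℕ} : saw (0 : ZMod m) = 0 := by simp [saw]

lemma saw_neg {m : ℕ} [NeZero m] (b : ZMod m) : saw (-b) = - saw b := by
  unfold saw
  by_cases h : b = 0
  · simp [h]
  · have h' : -b ≠ 0 := neg_ne_zero.mpr h
    rw [if_neg h, if_neg h']
    have : NeZero b := ⟨h⟩
    rw [ZMod.val_neg_of_ne_zero]
    have := (ZMod.val_lt b).le
    push_cast [this]
    ring

/-- The Stickelberger sum. -/
noncomputable def SS {m : ℕ} [NeZero m] (χ : DirichletCharacter ℂ m) (a : ZMod m) : ℂ :=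
  ∑ t : (ZMod m)ˣ, χ t * (saw ((t : ZMod m) * a) : ℂ)

lemma sinZeta_toAddCircle {m : ℕ} [NeZero m] (j : ZMod m) :
    sinZeta (ZMod.toAddCircle j) 1 = - (Real.pi / (2 * m)) * (saw j : ℂ) := by
  have hm : (m : ℂ) ≠ 0 := Nat.cast_ne_zero.mpr (NeZero.ne m)
  have hm0 : (0 : ℝ) < m := Nat.cast_pos.mpr (NeZero.pos m)
  by_cases h : j = 0
  · subst h
    rw [map_zero, saw_zero]
    have := sinZeta_neg (0 : UnitAddCircle) 1
    rw [neg_zero] at this
    have h2 : sinZeta (0 : UnitAddCircle) 1 = 0 := by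
      have h3 : 2 * sinZeta (0 : UnitAddCircle) 1 = 0 := by linear_combination this
      simpa using h3
    rw [h2]; simp
  · have hv : 0 < j.val := by
      rw [Nat.pos_iff_ne_zero]
      intro h'
      exact h ((ZMod.val_eq_zero j).mp h')
    rw [ZMod.toAddCircle_apply, sinZeta_one (div_pos (Nat.cast_pos.mpr hv) hm0)
      ((div_lt_one hm0).mpr (Nat.cast_lt.mpr (ZMod.val_lt j)))]
    unfold saw
    rw [if_neg h]
    push_cast
    field_simp
    ring

/-- For an odd Dirichlet character, some Stickelberger sum does not vanish. -/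
theorem exists_SS_ne_zero {m : ℕ} [NeZero m] (χ : DirichletCharacter ℂ m) (hχ : χ.Odd) :
    ∃ a : ZMod m, SS χ a ≠ 0 := by
  by_contra hcon
  push Not at hcon
  set ψ : DirichletCharacter ℂ m := χ⁻¹ with hψ
  have hψodd : ψ.Odd := by
    unfold DirichletCharacter.Odd at hχ ⊢
    rw [hψ, MulChar.inv_apply_eq_inv', hχ]
    norm_num
  have hψ1 : ψ ≠ 1 := by
    intro h
    unfold DirichletCharacter.Odd at hψodd
    rw [h] at hψodd
    rw [MulChar.one_apply (by simp : IsUnit (-1 : ZMod m))] at hψodd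
    norm_num at hψodd
  have hL := DirichletCharacter.LFunction_apply_one_ne_zero (χ := ψ) hψ1
  apply hL
  have hm : (m : ℂ) ≠ 0 := Nat.cast_ne_zero.mpr (NeZero.ne m)
  -- F = Fourier transform of ψ
  set F : ZMod m → ℂ := ZMod.dft (fun j => ψ j) with hF
  have hF0 : F 0 = 0 := by
    rw [hF, ZMod.dft_apply_zero]
    exact MulChar.sum_eq_zero_of_ne_one hψ1
  have hfun : Function.Odd (fun j : ZMod m => ψ j) := hψodd.to_fun
  have hFodd : ∀ j, F (-j) = - F j := by
    have := ZMod.dft_odd_iff.mpr hfun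
    exact this
  have hFF : ZMod.dft F = fun j => (m : ℂ) * (- ψ j) := by
    rw [hF, ZMod.dft_dft]
    funext j
    simp only [smul_eq_mul]
    rw [DirichletCharacter.Odd.eval_neg (ψ := ψ) j hψodd]
  have hLF := ZMod.LFunction_dft F (s := 1) (Or.inl hF0)
  rw [hFF] at hLF
  -- LHS = - m * L
  have hlhs : ZMod.LFunction (fun j => (m : ℂ) * (- ψ j)) 1 =
      - (m : ℂ) * DirichletCharacter.LFunction ψ 1 := by
    unfold DirichletCharacter.LFunction ZMod.LFunction
    simp only [mul_sum]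
    refine sum_congr rfl fun j _ => ?_
    ring
  -- RHS
  have hrhs : ∑ j : ZMod m, F j * expZeta (toAddCircle (-j)) 1 =
      (-I) * ∑ j : ZMod m, F j * sinZeta (toAddCircle j) 1 := by
    have h1 : ∑ j : ZMod m, F j * expZeta (toAddCircle (-j)) 1 =
        ∑ j : ZMod m, (- F j) * expZeta (toAddCircle j) 1 := by
      rw [← Equiv.sum_comp (Equiv.neg (ZMod m))]
      refine sum_congr rfl fun j _ => ?_
      simp only [Equiv.neg_apply, neg_neg, hFodd]
    have h2 : 2 * ∑ j : ZMod m, F j * expZeta (toAddCircle (-j)) 1 =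
        2 * ((-I) * ∑ j : ZMod m, F j * sinZeta (toAddCircle j) 1) := by
      rw [two_mul]
      nth_rewrite 2 [h1]
      rw [← sum_add_distrib, mul_sum, mul_sum]
      refine sum_congr rfl fun j _ => ?_
      rw [sinZeta_eq, map_neg]
      have hI : (2 : ℂ) * I ≠ 0 := by simp
      field_simp
      ring
    exact mul_left_cancel₀ two_ne_zero h2
  -- the sum of F j * saw j vanishes
  have hinv : ∀ (u : (ZMod m)ˣ) (j : ZMod m), F ((u : ZMod m) * j) = χ u * F j := by
    intro u j
    have h := ZMod.dft_comp_unitMul (fun j => ψ j) u⁻¹ j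
    rw [inv_inv] at h
    rw [hF, ← h]
    have : (fun j : ZMod m => ψ ((u⁻¹ : (ZMod m)ˣ) * j)) = fun j => χ u * ψ j := by
      funext k
      rw [map_mul]
      congr 1
      rw [hψ, MulChar.inv_apply_eq_inv']
      have : χ (u : ZMod m) * χ ((u⁻¹ : (ZMod m)ˣ) : ZMod m) = 1 := by
        rw [← map_mul]; simp
      exact (eq_inv_of_mul_eq_one_left this).symm
    rw [this, ZMod.dft_const_mul]
  have hsaw : ∑ j : ZMod m, F j * (saw j : ℂ) = 0 := by
    have h1 : ∀ u : (ZMod m)ˣ, ∑ j : ZMod m, F j * (saw j : ℂ) =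
        ∑ j : ZMod m, F j * (χ u * (saw ((u : ZMod m) * j) : ℂ)) := by
      intro u
      rw [← Equiv.sum_comp (Units.mulLeft u)]
      refine sum_congr rfl fun j _ => ?_
      simp only [Units.mulLeft_apply]
      rw [hinv]
      ring
    have h2 : (Fintype.card (ZMod m)ˣ : ℂ) * ∑ j : ZMod m, F j * (saw j : ℂ) = 0 := by
      calc (Fintype.card (ZMod m)ˣ : ℂ) * ∑ j : ZMod m, F j * (saw j : ℂ)
          = ∑ u : (ZMod m)ˣ, ∑ j : ZMod m, F j * (saw j : ℂ) := by
            rw [sum_const, card_univ, nsmul_eq_mul]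
        _ = ∑ u : (ZMod m)ˣ, ∑ j : ZMod m, F j * (χ u * (saw ((u : ZMod m) * j) : ℂ)) :=
            sum_congr rfl fun u _ => h1 u
        _ = ∑ j : ZMod m, F j * SS χ j := by
            rw [sum_comm]
            refine sum_congr rfl fun j _ => ?_
            rw [SS, mul_sum]
        _ = 0 := by simp [hcon]
    have hc : (Fintype.card (ZMod m)ˣ : ℂ) ≠ 0 := Nat.cast_ne_zero.mpr Fintype.card_ne_zero
    exact (mul_eq_zero.mp h2).resolve_left hc
  have hfinal : ∑ j : ZMod m, F j * sinZeta (toAddCircle j) 1 = 0 := by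
    have : ∑ j : ZMod m, F j * sinZeta (toAddCircle j) 1 =
        - (Real.pi / (2 * m)) * ∑ j : ZMod m, F j * (saw j : ℂ) := by
      rw [mul_sum]
      refine sum_congr rfl fun j _ => ?_
      rw [sinZeta_toAddCircle]
      ring
    rw [this, hsaw, mul_zero]
  rw [hlhs, hrhs, hfinal, mul_zero] at hLF
  exact (mul_eq_zero.mp hLF).resolve_left (neg_ne_zero.mpr hm)

end Pool.Agent.H916R2
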