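import Pool.Agent.H916R2.Certs

/-!
The degrees `2^a 3^b 5^c`, `2^a 3^b 7^c`, prime powers, ... : case distinction.
-/

namespace Pool.Agent.H916R2.Families

open Pool.Agent.H916R2

lemma key {m m0 : ℕ} [NeZero m0] (hm : 0 < m) (hfull : Full m0) (hdvd : m0 ∣ m)
    (hprime : ∀ p : ℕ, p.Prime → p ∣ m → p ∣ m0) (hfour : 4 ∣ m → 4 ∣ m0)
    (s : Multiset (ZMod m)) (hs : IsHodge m s) (hne : s ≠ 0) :
    Generated m (SurfaceCharacter m) s := by
  have : NeZero m := ⟨hm.ne'⟩
  have hk : (m / m0) * m0 = m := Nat.div_mul_cancel hdvd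
  have hred : Red m m0 (m / m0) := red_exists _ m m0 (m / m0) rfl hk hprime hfour
  exact generated_of_full hk hred hfull hs hne

lemma dvd_of_dvd_mul {p a b : ℕ} (hp : p.Prime) (h : p ∣ a * b) : p ∣ a ∨ p ∣ b :=
  (Nat.Prime.dvd_mul hp).mp h

lemma case_three {m q : ℕ} (hm : 0 < m) (hq : q = 5 ∨ q = 7)
    (h : ∀ p : ℕ, p.Prime → p ∣ m → p = 2 ∨ p = 3 ∨ p = q)
    (s : Multiset (ZMod m)) (hs : IsHodge m s) (hne : s ≠ 0) :
    Generated m (SurfaceCharacter m) s := by
  have hprime : ∀ m0 : ℕ, (2 ∣ m → 2 ∣ m0) → (3 ∣ m → 3 ∣ m0) → (q ∣ m → q ∣ m0) →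
      ∀ p : ℕ, p.Prime → p ∣ m → p ∣ m0 := by
    intro m0 h2 h3 hq' p hp hpm
    rcases h p hp hpm with rfl | rfl | rfl
    · exact h2 hpm
    · exact h3 hpm
    · exact hq' hpm
  have c23 : Nat.Coprime 2 3 := by norm_num
  have c43 : Nat.Coprime 4 3 := by norm_num
  rcases hq with rfl | rfl
  · by_cases h3 : 3 ∣ m <;> by_cases h5 : 5 ∣ m <;> by_cases h4 : 4 ∣ m
    · exact key hm full_60 (by omega) (hprime 60 (fun _ => by norm_num) (fun _ => by norm_num)
        (fun _ => by norm_num)) (fun _ => by norm_num) s hs hne
    · by_cases h2 : 2 ∣ m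
      · exact key hm full_30 (by omega) (hprime 30 (fun _ => by norm_num) (fun _ => by norm_num)
          (fun _ => by norm_num)) (fun h => absurd h h4) s hs hne
      · exact key hm full_15 (by omega) (hprime 15 (fun h => absurd h h2) (fun _ => by norm_num)
          (fun _ => by norm_num)) (fun h => absurd h h4) s hs hne
    · exact key hm full_12 (by omega) (hprime 12 (fun _ => by norm_num) (fun _ => by norm_num)
        (fun h => absurd h h5)) (fun _ => by norm_num) s hs hne
    · by_cases h2 : 2 ∣ m
      · exact key hm full_6 (by omega) (hprime 6 (fun _ => by norm_num) (fun _ => by norm_num)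
          (fun h => absurd h h5)) (fun h => absurd h h4) s hs hne
      · exact key hm full_3 (by omega) (hprime 3 (fun h => absurd h h2) (fun _ => by norm_num)
          (fun h => absurd h h5)) (fun h => absurd h h4) s hs hne
    · exact key hm full_20 (by omega) (hprime 20 (fun _ => by norm_num) (fun h => absurd h h3)
        (fun _ => by norm_num)) (fun _ => by norm_num) s hs hne
    · by_cases h2 : 2 ∣ m
      · exact key hm full_10 (by omega) (hprime 10 (fun _ => by norm_num) (fun h => absurd h h3)
          (fun _ => by norm_num)) (fun h => absurd h h4) s hs hne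
      · exact key hm full_5 (by omega) (hprime 5 (fun h => absurd h h2) (fun h => absurd h h3)
          (fun _ => by norm_num)) (fun h => absurd h h4) s hs hne
    · exact key hm full_4 (by omega) (hprime 4 (fun _ => by norm_num) (fun h => absurd h h3)
        (fun h => absurd h h5)) (fun _ => by norm_num) s hs hne
    · by_cases h2 : 2 ∣ m
      · exact key hm full_two (by omega) (hprime 2 (fun _ => by norm_num) (fun h => absurd h h3)
          (fun h => absurd h h5)) (fun h => absurd h h4) s hs hne
      · exact key hm full_one (one_dvd m) (hprime 1 (fun h => absurd h h2) (fun h => absurd h h3)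
          (fun h => absurd h h5)) (fun h => absurd h h4) s hs hne
  · by_cases h3 : 3 ∣ m <;> by_cases h5 : 7 ∣ m <;> by_cases h4 : 4 ∣ m
    · exact key hm full_84 (by omega) (hprime 84 (fun _ => by norm_num) (fun _ => by norm_num)
        (fun _ => by norm_num)) (fun _ => by norm_num) s hs hne
    · by_cases h2 : 2 ∣ m
      · exact key hm full_42 (by omega) (hprime 42 (fun _ => by norm_num) (fun _ => by norm_num)
          (fun _ => by norm_num)) (fun h => absurd h h4) s hs hne
      · exact key hm full_21 (by omega) (hprime 21 (fun h => absurd h h2) (fun _ => by norm_num)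
          (fun _ => by norm_num)) (fun h => absurd h h4) s hs hne
    · exact key hm full_12 (by omega) (hprime 12 (fun _ => by norm_num) (fun _ => by norm_num)
        (fun h => absurd h h5)) (fun _ => by norm_num) s hs hne
    · by_cases h2 : 2 ∣ m
      · exact key hm full_6 (by omega) (hprime 6 (fun _ => by norm_num) (fun _ => by norm_num)
          (fun h => absurd h h5)) (fun h => absurd h h4) s hs hne
      · exact key hm full_3 (by omega) (hprime 3 (fun h => absurd h h2) (fun _ => by norm_num)
          (fun h => absurd h h5)) (fun h => absurd h h4) s hs hne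
    · exact key hm full_28 (by omega) (hprime 28 (fun _ => by norm_num) (fun h => absurd h h3)
        (fun _ => by norm_num)) (fun _ => by norm_num) s hs hne
    · by_cases h2 : 2 ∣ m
      · exact key hm full_14 (by omega) (hprime 14 (fun _ => by norm_num) (fun h => absurd h h3)
          (fun _ => by norm_num)) (fun h => absurd h h4) s hs hne
      · exact key hm full_7 (by omega) (hprime 7 (fun h => absurd h h2) (fun h => absurd h h3)
          (fun _ => by norm_num)) (fun h => absurd h h4) s hs hne
    · exact key hm full_4 (by omega) (hprime 4 (fun _ => by norm_num) (fun h => absurd h h3)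
        (fun h => absurd h h5)) (fun _ => by norm_num) s hs hne
    · by_cases h2 : 2 ∣ m
      · exact key hm full_two (by omega) (hprime 2 (fun _ => by norm_num) (fun h => absurd h h3)
          (fun h => absurd h h5)) (fun h => absurd h h4) s hs hne
      · exact key hm full_one (one_dvd m) (hprime 1 (fun h => absurd h h2) (fun h => absurd h h3)
          (fun h => absurd h h5)) (fun h => absurd h h4) s hs hne

lemma prime_dvd_pow_eq {p q k : ℕ} (hp : p.Prime) (hq : q.Prime) (h : q ∣ p ^ k) : q = p :=
  (Nat.prime_dvd_prime_iff_eq hq hp).mp (hq.dvd_of_dvd_pow h)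

lemma case_pow {m p k : ℕ} (hm : 0 < m) (hp : p.Prime) (h : m = p ^ k ∨ m = 2 * p ^ k)
    (s : Multiset (ZMod m)) (hs : IsHodge m s) (hne : s ≠ 0) :
    Generated m (SurfaceCharacter m) s := by
  by_cases hp2 : p = 2
  · subst hp2
    refine case_three hm (Or.inl rfl) ?_ s hs hne
    intro q hq hqm
    left
    rcases h with rfl | rfl
    · exact prime_dvd_pow_eq Nat.prime_two hq hqm
    · rw [← pow_succ'] at hqm
      exact prime_dvd_pow_eq Nat.prime_two hq hqm
  · have hp3 : 3 ≤ p := by
      have := hp.two_le
      omega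
    rcases Nat.eq_zero_or_pos k with rfl | hk
    · refine case_three hm (Or.inl rfl) ?_ s hs hne
      intro q hq hqm
      rw [pow_zero, mul_one] at h
      rcases h with rfl | rfl
      · exact absurd (Nat.dvd_one.mp hqm) hq.one_lt.ne'
      · left; exact (Nat.prime_dvd_prime_iff_eq hq Nat.prime_two).mp hqm
    · have hnp : NeZero p := ⟨hp.ne_zero⟩
      have hn2p : NeZero (2 * p) := ⟨by have := hp.pos; omega⟩
      have hodd : ¬ 2 ∣ p ^ k := by
        intro h2
        exact hp2 (prime_dvd_pow_eq hp Nat.prime_two h2).symm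
      rcases h with rfl | rfl
      · refine key hm (full_prime hp hp3) (dvd_pow_self p (by omega)) ?_ ?_ s hs hne
        · intro q hq hqm
          rw [prime_dvd_pow_eq hp hq hqm]
        · intro h4
          exact absurd (dvd_trans (by norm_num) h4) hodd
      · refine key hm (full_two_mul_prime hp hp3)
          (Nat.mul_dvd_mul_left 2 (dvd_pow_self p (by omega))) ?_ ?_ s hs hne
        · intro q hq hqm
          rcases dvd_of_dvd_mul hq hqm with h2 | h2
          · exact h2.mul_right p
          · rw [prime_dvd_pow_eq hp hq h2]; exact dvd_mul_left p 2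
        · intro h4
          exact absurd (Nat.dvd_of_mul_dvd_mul_left (by norm_num : 0 < 2) h4) hodd

lemma case_two_three {m q : ℕ} (hm : 0 < m) (hq : q = 11 ∨ q = 13) {a b : ℕ}
    (h : m = 2 * 3 ^ a * q ^ b) (s : Multiset (ZMod m)) (hs : IsHodge m s) (hne : s ≠ 0) :
    Generated m (SurfaceCharacter m) s := by
  have hqp : q.Prime := by rcases hq with rfl | rfl <;> norm_num
  rcases Nat.eq_zero_or_pos a with rfl | ha
  · exact case_pow (k := b) hm hqp (Or.inr (by rw [h]; ring)) s hs hne
  rcases Nat.eq_zero_or_pos b with rfl | hb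
  · exact case_pow (k := a) hm Nat.prime_three (Or.inr (by rw [h]; ring)) s hs hne
  have hdvd : 2 * 3 * q ∣ m := by
    rw [h]
    exact Nat.mul_dvd_mul (Nat.mul_dvd_mul_left 2 (dvd_pow_self 3 (by omega)))
      (dvd_pow_self q (by omega))
  have hprime : ∀ p : ℕ, p.Prime → p ∣ m → p ∣ 2 * 3 * q := by
    intro p hp hpm
    rw [h] at hpm
    rcases dvd_of_dvd_mul hp hpm with h1 | h1
    · rcases dvd_of_dvd_mul hp h1 with h2 | h2
      · exact (h2.mul_right 3).mul_right q
      · rw [prime_dvd_pow_eq Nat.prime_three hp h2]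
        exact (dvd_mul_left 3 2).mul_right q
    · rw [prime_dvd_pow_eq hqp hp h1]; exact dvd_mul_left q _
  have h4 : ¬ 4 ∣ m := by
    intro h4
    rw [h, mul_assoc] at h4
    have h5 : 2 ∣ 3 ^ a * q ^ b := Nat.dvd_of_mul_dvd_mul_left (by norm_num : 0 < 2) h4
    rcases dvd_of_dvd_mul Nat.prime_two h5 with h6 | h6
    · have := prime_dvd_pow_eq Nat.prime_three Nat.prime_two h6
      omega
    · have := prime_dvd_pow_eq hqp Nat.prime_two h6
      omega
  rcases hq with rfl | rfl
  · exact key hm full_66 hdvd hprime (fun h => absurd h h4) s hs hne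
  · exact key hm full_78 hdvd hprime (fun h => absurd h h4) s hs hne


theorem main (m : ℕ) (hm : 0 < m) (hdeg : GoodDegree m)
    (s : Multiset (ZMod m)) (hs : IsHodge m s) (hne : s ≠ 0) :
    Generated m (SurfaceCharacter m) s := by
  rcases hdeg with h | h | ⟨p, k, hp, h⟩ | ⟨a, b, h⟩ | ⟨a, b, h⟩
  · exact case_three hm (Or.inl rfl) h s hs hne
  · exact case_three hm (Or.inr rfl) h s hs hne
  · exact case_pow hm hp h s hs hne
  · exact case_two_three hm (Or.inl rfl) h s hs hne
  · exact case_two_three hm (Or.inr rfl) h s hs hne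

end Pool.Agent.H916R2.Families
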