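import Pool.Agent.H916R2.Check

/-!
Certificates for `Full m` at the small levels.
-/

namespace Pool.Agent.H916R2

theorem full_3 : Full 3 :=
  full_of_check (by norm_num) [1]
    []
    (by decide +kernel) (by decide +kernel)

theorem full_4 : Full 4 :=
  full_of_check (by norm_num) [1]
    []
    (by decide +kernel) (by decide +kernel)

theorem full_5 : Full 5 :=
  full_of_check (by norm_num) [1, 2]
    []
    (by decide +kernel) (by decide +kernel)

theorem full_6 : Full 6 :=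
  full_of_check (by norm_num) [2]
    [(1, 4, 4, 3)]
    (by decide +kernel) (by decide +kernel)

theorem full_7 : Full 7 :=
  full_of_check (by norm_num) [1, 2, 3]
    []
    (by decide +kernel) (by decide +kernel)

theorem full_10 : Full 10 :=
  full_of_check (by norm_num) [2, 3]
    [(6, 2, 7, 5), (9, 4, 2, 5)]
    (by decide +kernel) (by decide +kernel)

theorem full_12 : Full 12 :=
  full_of_check (by norm_num) [4, 1]
    [(2, 8, 8, 6), (5, 11, 2, 6), (9, 1, 4, 10)]
    (by decide +kernel) (by decide +kernel)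

theorem full_14 : Full 14 :=
  full_of_check (by norm_num) [1, 3, 6]
    [(12, 1, 8, 7), (10, 3, 8, 7), (5, 12, 4, 7)]
    (by decide +kernel) (by decide +kernel)

theorem full_15 : Full 15 :=
  full_of_check (by norm_num) [6, 1, 3, 5]
    [(11, 1, 6, 12), (13, 1, 6, 10), (7, 1, 10, 12)]
    (by decide +kernel) (by decide +kernel)

theorem full_20 : Full 20 :=
  full_of_check (by norm_num) [2, 4, 7, 5]
    [(12, 2, 16, 10), (14, 4, 12, 10), (17, 7, 6, 10), (1, 4, 17, 18), (9, 1, 13, 17)]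
    (by decide +kernel) (by decide +kernel)

theorem full_21 : Full 21 :=
  full_of_check (by norm_num) [5, 8, 4, 6, 3, 7]
    [(1, 8, 15, 18), (19, 1, 4, 18), (10, 1, 15, 16), (9, 2, 11, 20)]
    (by decide +kernel) (by decide +kernel)

theorem full_28 : Full 28 :=
  full_of_check (by norm_num) [9, 8, 5, 6, 3, 13]
    [(17, 3, 22, 14), (18, 5, 19, 14), (16, 6, 20, 14), (24, 10, 8, 14), (26, 12, 4, 14), (27, 13, 2, 14), (21, 1, 9, 25)]
    (by decide +kernel) (by decide +kernel)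

theorem full_30 : Full 30 :=
  full_of_check (by norm_num) [11, 3, 6, 2]
    [(18, 3, 24, 15), (21, 6, 18, 15), (1, 11, 21, 27), (22, 2, 12, 24), (4, 1, 27, 28), (23, 1, 8, 28), (25, 1, 8, 26), (10, 1, 24, 25), (13, 1, 21, 25), (16, 1, 15, 28)]
    (by decide +kernel) (by decide +kernel)

theorem full_42 : Full 42 :=
  full_of_check (by norm_num) [8, 5, 19, 4, 9, 14]
    [(2, 23, 38, 21), (25, 4, 34, 21), (7, 28, 28, 21), (27, 5, 19, 33), (1, 8, 37, 38), (12, 1, 33, 38), (31, 1, 15, 37), (16, 1, 30, 37), (24, 1, 19, 40), (39, 1, 19, 25), (22, 1, 21, 40), (29, 1, 21, 33), (32, 1, 21, 30), (36, 1, 22, 25)]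
    (by decide +kernel) (by decide +kernel)

theorem full_60 : Full 60 :=
  full_of_check (by norm_num) [25, 23, 24, 27, 20, 12, 16, 19]
    [(6, 36, 48, 30), (10, 40, 40, 30), (42, 12, 36, 30), (55, 25, 10, 30), (57, 27, 6, 30), (4, 24, 44, 48), (1, 24, 41, 54), (51, 1, 27, 41), (49, 1, 30, 40), (31, 1, 40, 48), (46, 1, 31, 42), (34, 1, 36, 49), (38, 1, 40, 41), (2, 11, 48, 59), (15, 2, 48, 55), (52, 2, 16, 50), (21, 2, 40, 57), (53, 2, 23, 42), (47, 2, 23, 48), (32, 2, 30, 56), (43, 3, 23, 51)]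
    (by decide +kernel) (by decide +kernel)

theorem full_66 : Full 66 :=
  full_of_check (by norm_num) [27, 12, 5, 15, 3, 28, 26, 19, 21, 2]
    [(56, 5, 38, 33), (6, 39, 54, 33), (42, 12, 45, 33), (14, 47, 38, 33), (59, 26, 14, 33), (30, 63, 6, 33), (48, 15, 36, 33), (57, 24, 18, 33), (46, 2, 24, 60), (25, 3, 47, 57), (4, 26, 48, 54), (49, 5, 27, 51), (50, 6, 28, 48), (29, 7, 51, 45), (8, 30, 52, 42), (32, 10, 54, 36), (1, 17, 50, 64), (23, 1, 45, 63), (44, 1, 25, 62), (35, 1, 34, 62), (53, 5, 22, 52), (11, 33, 44, 44)]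
    (by decide +kernel) (by decide +kernel)

theorem full_78 : Full 78 :=
  full_of_check (by norm_num) [3, 5, 14, 26, 7, 36, 18, 34, 30, 8, 27, 25]
    [(72, 3, 42, 39), (68, 5, 44, 39), (46, 7, 64, 39), (9, 48, 60, 39), (13, 52, 52, 39), (50, 14, 53, 39), (57, 18, 42, 39), (1, 27, 53, 75), (58, 6, 32, 60), (54, 8, 34, 60), (62, 10, 36, 48), (76, 24, 50, 6), (59, 1, 20, 76), (61, 1, 32, 62), (40, 1, 39, 76), (55, 1, 39, 61), (56, 1, 44, 55), (74, 2, 7, 73), (41, 2, 39, 74), (43, 2, 41, 70), (29, 3, 55, 69), (66, 4, 30, 56), (47, 4, 43, 62), (63, 5, 31, 57), (45, 6, 39, 66), (67, 8, 19, 62)]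
    (by decide +kernel) (by decide +kernel)

theorem full_84 : Full 84 :=
  full_of_check (by norm_num) [27, 31, 25, 9, 30, 33, 11, 26, 40, 28, 29, 19]
    [(66, 9, 51, 42), (62, 11, 53, 42), (13, 55, 58, 42), (14, 56, 56, 42), (15, 57, 54, 42), (20, 62, 44, 42), (3, 31, 59, 75), (37, 9, 65, 57), (83, 27, 55, 3), (63, 1, 29, 75), (43, 1, 58, 66), (60, 1, 43, 64), (2, 29, 66, 71), (78, 2, 30, 58), (74, 2, 30, 62), (72, 2, 30, 64), (32, 2, 60, 74), (68, 2, 32, 66), (36, 2, 64, 66), (38, 2, 62, 66), (80, 2, 42, 44), (76, 2, 42, 48), (50, 2, 42, 74), (45, 3, 42, 78), (23, 4, 65, 76), (67, 4, 25, 72), (5, 33, 61, 69), (7, 28, 63, 70), (35, 7, 63, 63)]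
    (by decide +kernel) (by decide +kernel)

end Pool.Agent.H916R2
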