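import Pool.Agent.H916R2.Full

/-!
A certificate checker for `Full m`, and the general cases `m = p`, `m = 2 p`.
-/

namespace Pool.Agent.H916R2

open Finset

/-- is `x` (or `m - x`) in the list of known residues, or is it of order two? -/
def okB (m : ℕ) (K : List ℕ) (x : ℕ) : Bool :=
  K.contains x || (K.contains (m - x) || (2 * x % m == 0))

/-- is `(a, b, c, d)` a Hodge character? -/
def hodge4 (m a b c d : ℕ) : Bool :=
  (0 < a && a < m) && ((0 < b && b < m) && ((0 < c && c < m) && ((0 < d && d < m) &&
    (((a + b + c + d) % m == 0) &&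
      (List.range m).all fun t => (Nat.gcd t m != 1) ||
        (2 * (t * a % m + t * b % m + t * c % m + t * d % m) == m * 4)))))

/-- one step of the elimination -/
def stepB (m : ℕ) (K : List ℕ) (q : ℕ × ℕ × ℕ × ℕ) : List ℕ :=
  if hodge4 m q.1 q.2.1 q.2.2.1 q.2.2.2 && (okB m K q.2.1 && (okB m K q.2.2.1 && okB m K q.2.2.2))
  then q.1 :: K else K

/-- the complete check -/
def checkB (m : ℕ) (B : List ℕ) (steps : List (ℕ × ℕ × ℕ × ℕ)) : Bool :=
  (List.range m).all (okB m (steps.foldl (stepB m) B))

variable {m : ℕ} [NeZero m]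

lemma hodge4_sound {a b c d : ℕ} (h : hodge4 m a b c d = true) :
    IsHodge m ({(a : ZMod m), (b : ZMod m), (c : ZMod m), (d : ZMod m)} : Multiset (ZMod m)) := by
  simp only [hodge4, Bool.and_eq_true, decide_eq_true_eq, beq_iff_eq, List.all_eq_true,
    List.mem_range, Bool.or_eq_true, bne_iff_ne, ne_eq] at h
  obtain ⟨⟨ha0, ham⟩, ⟨hb0, hbm⟩, ⟨hc0, hcm⟩, ⟨hd0, hdm⟩, hsum, hall⟩ := h
  have hne : ∀ x : ℕ, 0 < x → x < m → (x : ZMod m) ≠ 0 := by
    intro x h0 h1 h
    rw [ZMod.natCast_eq_zero_iff] at h
    exact absurd (Nat.le_of_dvd h0 h) (by omega)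
  refine ⟨?_, ?_, ?_, ?_⟩
  · simp only [Multiset.insert_eq_cons, Multiset.mem_cons, Multiset.mem_singleton, not_or]
    exact ⟨(hne a ha0 ham).symm, (hne b hb0 hbm).symm, (hne c hc0 hcm).symm, (hne d hd0 hdm).symm⟩
  · simp only [Multiset.insert_eq_cons, Multiset.card_cons, Multiset.card_singleton]
    decide
  · simp only [Multiset.insert_eq_cons, Multiset.sum_cons, Multiset.sum_singleton]
    have : ((a + b + c + d : ℕ) : ZMod m) = 0 := by
      rw [ZMod.natCast_eq_zero_iff]; exact Nat.dvd_of_mod_eq_zero hsum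
    push_cast at this
    linear_combination this
  · intro t
    have hcop : Nat.gcd (t : ZMod m).val m = 1 := ZMod.val_coe_unit_coprime t
    have h1 := hall (t : ZMod m).val (ZMod.val_lt _)
    rcases h1 with h1 | h1
    · exact absurd hcop h1
    · have hv : ∀ x : ℕ, ((t : ZMod m) * (x : ZMod m)).val = (t : ZMod m).val * x % m := by
        intro x
        rw [ZMod.val_mul, ZMod.val_natCast, Nat.mul_mod_mod]
      simp only [Multiset.insert_eq_cons, Multiset.map_cons, Multiset.map_singleton,
        Multiset.sum_cons, Multiset.sum_singleton, Multiset.card_cons, Multiset.card_singleton, hv]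
      omega

lemma okB_sound {Q : Type*} [AddCommGroup Q] {c : ZMod m → Q} (hc : OddDist c) {S : AddSubgroup Q}
    {K : List ℕ} (hK : ∀ k ∈ K, c (k : ZMod m) ∈ S) {x : ℕ} (hx : x ≤ m)
    (h : okB m K x = true) : c (x : ZMod m) ∈ S := by
  simp only [okB, Bool.or_eq_true, List.contains_iff_mem, beq_iff_eq] at h
  rcases h with h | h | h
  · exact hK x h
  · have h1 := hK _ h
    have h2 : ((m - x : ℕ) : ZMod m) = - (x : ZMod m) := by
      rw [Nat.cast_sub hx]; simp
    rw [h2, hc.neg] at h1
    simpa using S.neg_mem h1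
  · have h1 : (x : ZMod m) + (x : ZMod m) = 0 := by
      have : ((2 * x : ℕ) : ZMod m) = 0 := by
        rw [ZMod.natCast_eq_zero_iff]; exact Nat.dvd_of_mod_eq_zero h
      push_cast at this
      linear_combination this
    rw [hc.half _ h1]
    exact S.zero_mem

theorem full_of_check (hm3 : 3 ≤ m) (B : List ℕ) (steps : List (ℕ × ℕ × ℕ × ℕ))
    (hlen : 2 * B.length ≤ Nat.totient m) (h : checkB m B steps = true) : Full m := by
  classical
  apply full_of_gen hm3 ((B.map (fun n : ℕ => (n : ZMod m))).toFinset)
  · have h1 := List.toFinset_card_le (B.map (fun n : ℕ => (n : ZMod m)))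
    rw [List.length_map] at h1
    omega
  · intro Q _ c hc hc4 S hS a
    have hB : ∀ k ∈ B, c (k : ZMod m) ∈ S := by
      intro k hk
      apply hS
      rw [List.mem_toFinset]
      exact List.mem_map.mpr ⟨k, hk, rfl⟩
    have hsteps : ∀ (st : List (ℕ × ℕ × ℕ × ℕ)) (K : List ℕ), (∀ k ∈ K, c (k : ZMod m) ∈ S) →
        ∀ k ∈ st.foldl (stepB m) K, c (k : ZMod m) ∈ S := by
      intro st
      induction st with
      | nil => intro K hK; exact hK
      | cons q st ih =>
        intro K hK
        rw [List.foldl_cons]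
        apply ih
        intro k hk
        unfold stepB at hk
        split_ifs at hk with hcond
        · rcases List.mem_cons.mp hk with rfl | hk
          · simp only [Bool.and_eq_true] at hcond
            obtain ⟨hh, h1, h2, h3⟩ := hcond
            have hh' := hh
            simp only [hodge4, Bool.and_eq_true, decide_eq_true_eq] at hh'
            obtain ⟨_, ⟨_, hb⟩, ⟨_, hc'⟩, ⟨_, hd⟩, _⟩ := hh'
            have hs := hc4 _ (hodge4_sound hh) (by simp)
            simp only [Multiset.insert_eq_cons, Multiset.map_cons, Multiset.map_singleton,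
              Multiset.sum_cons, Multiset.sum_singleton] at hs
            have e : c (q.1 : ZMod m) = -(c (q.2.1 : ZMod m) + (c (q.2.2.1 : ZMod m) +
                c (q.2.2.2 : ZMod m))) := eq_neg_of_add_eq_zero_left hs
            rw [e]
            exact S.neg_mem (S.add_mem (okB_sound hc hK hb.le h1)
              (S.add_mem (okB_sound hc hK hc'.le h2) (okB_sound hc hK hd.le h3)))
          · exact hK k hk
        · exact hK k hk
    unfold checkB at h
    rw [List.all_eq_true] at h
    have h1 := h a.val (List.mem_range.mpr (ZMod.val_lt a))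
    have h2 := okB_sound hc (hsteps steps B hB) (ZMod.val_lt a).le h1
    rwa [ZMod.natCast_zmod_val] at h2

/-- primes -/
theorem full_prime {p : ℕ} [NeZero p] (hp : p.Prime) (hp3 : 3 ≤ p) : Full p := by
  classical
  have hodd : p % 2 = 1 := by
    rcases hp.eq_two_or_odd with h | h
    · omega
    · exact h
  apply full_of_gen hp3 ((Finset.Icc 1 ((p - 1) / 2)).image (fun n : ℕ => (n : ZMod p)))
  · rw [Nat.totient_prime hp]
    have h1 := Finset.card_image_le (s := Finset.Icc 1 ((p - 1) / 2))
      (f := fun n : ℕ => (n : ZMod p))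
    rw [Nat.card_Icc] at h1
    omega
  · intro Q _ c hc _ S hS a
    by_cases ha : a = 0
    · rw [ha, hc.half 0 (by simp)]; exact S.zero_mem
    have hv : 0 < a.val := Nat.pos_of_ne_zero (fun h => ha ((ZMod.val_eq_zero a).mp h))
    have hlt := ZMod.val_lt a
    by_cases h : a.val ≤ (p - 1) / 2
    · apply hS
      exact mem_image.mpr ⟨a.val, mem_Icc.mpr ⟨hv, h⟩, ZMod.natCast_zmod_val a⟩
    · have h1 : c (-a) ∈ S := by
        apply hS
        refine mem_image.mpr ⟨p - a.val, mem_Icc.mpr ⟨by omega, by omega⟩, ?_⟩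
        rw [Nat.cast_sub hlt.le]
        simp
      rw [hc.neg] at h1
      simpa using S.neg_mem h1

/-- twice an odd prime -/
theorem full_two_mul_prime {p : ℕ} [NeZero (2 * p)] (hp : p.Prime) (hp3 : 3 ≤ p) :
    Full (2 * p) := by
  classical
  have hodd : p % 2 = 1 := by
    rcases hp.eq_two_or_odd with h | h
    · omega
    · exact h
  have hp0 := hp.pos
  apply full_of_gen (by omega)
    ((Finset.Icc 1 ((p - 1) / 2)).image (fun n : ℕ => ((2 * n : ℕ) : ZMod (2 * p))))
  · rw [Nat.totient_mul ((Nat.coprime_primes Nat.prime_two hp).mpr (by omega)),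
      Nat.totient_prime hp, Nat.totient_two, one_mul]
    have h1 := Finset.card_image_le (s := Finset.Icc 1 ((p - 1) / 2))
      (f := fun n : ℕ => ((2 * n : ℕ) : ZMod (2 * p)))
    rw [Nat.card_Icc] at h1
    omega
  · intro Q _ c hc _ S hS
    -- even residues
    have heven : ∀ n : ℕ, c ((2 * n : ℕ) : ZMod (2 * p)) ∈ S := by
      intro n
      have hred : ((2 * n : ℕ) : ZMod (2 * p)) = ((2 * (n % p) : ℕ) : ZMod (2 * p)) := by
        rw [ZMod.natCast_eq_natCast_iff', Nat.mul_mod_mul_left, Nat.mul_mod_mul_left, Nat.mod_mod]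
      rw [hred]
      set r := n % p with hr
      have hrp : r < p := Nat.mod_lt _ hp0
      rcases Nat.eq_zero_or_pos r with h0 | h0
      · rw [h0]
        simp only [mul_zero, Nat.cast_zero]
        rw [hc.half 0 (by simp)]
        exact S.zero_mem
      · by_cases h : r ≤ (p - 1) / 2
        · apply hS
          exact mem_image.mpr ⟨r, mem_Icc.mpr ⟨h0, h⟩, rfl⟩
        · have h1 : c ((2 * (p - r) : ℕ) : ZMod (2 * p)) ∈ S := by
            apply hS
            exact mem_image.mpr ⟨p - r, mem_Icc.mpr ⟨by omega, by omega⟩, rfl⟩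
          have h2 : ((2 * (p - r) : ℕ) : ZMod (2 * p)) = - ((2 * r : ℕ) : ZMod (2 * p)) := by
            have h3 : ((2 * (p - r) + 2 * r : ℕ) : ZMod (2 * p)) = 0 := by
              rw [ZMod.natCast_eq_zero_iff]
              exact ⟨1, by omega⟩
            rw [Nat.cast_add] at h3
            exact eq_neg_of_add_eq_zero_left h3
          rw [h2, hc.neg] at h1
          simpa using S.neg_mem h1
    intro a
    have ha : a = ((a.val : ℕ) : ZMod (2 * p)) := (ZMod.natCast_zmod_val a).symm
    rcases Nat.even_or_odd' a.val with ⟨k, hk | hk⟩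
    · rw [ha, hk]; exact heven k
    · have hrel := hc.dist 2 p Nat.prime_two rfl a
      rw [sum_range_succ, sum_range_one] at hrel
      simp only [Nat.cast_zero, zero_mul, add_zero, Nat.cast_one, one_mul] at hrel
      have h1 : c a = c ((2 : ℕ) * a) - c (a + p) := by
        rw [← hrel]; abel
      rw [h1]
      apply S.sub_mem
      · rw [ha, ← Nat.cast_mul]
        exact heven _
      · have h2 : a + (p : ZMod (2 * p)) = ((2 * (k + (p + 1) / 2) : ℕ) : ZMod (2 * p)) := by
          have h3 : 2 * (k + (p + 1) / 2) = a.val + p := by omega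
          rw [h3, Nat.cast_add, ← ha]
        rw [h2]
        exact heven _

theorem full_one : Full 1 := by
  apply full_of_zero
  intro Q _ c hc _ a
  exact hc.half a (Subsingleton.elim _ _)

theorem full_two : Full 2 := by
  apply full_of_zero
  intro Q _ c hc _ a
  apply hc.half a
  revert a
  decide

end Pool.Agent.H916R2
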