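import Mathlib

/-!
# Characters of Fermat varieties

The Fermat variety of degree `m` and even dimension `n` is the hypersurface
`x_0 ^ m + ... + x_(n+1) ^ m = 0`. Its primitive middle cohomology splits into lines indexed by
the tuples of `n + 2` nonzero residues mod `m` with sum zero (up to order: multisets), and the
Hodge classes are spanned by the lines of the *Hodge characters* (Shioda).
-/

namespace Pool.Agent.H916R2

/-- A Hodge character of degree `m`: a multiset `s` of an even number of nonzero residues modulo
`m`, with sum zero, such that for every unit `t` modulo `m` the sum of the representatives in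
`{1, ..., m - 1}` of the residues `t * a`, `a ∈ s`, equals `m * |s| / 2`.
(It is a character of the Fermat variety of degree `m` and dimension `n = |s| - 2`.) -/
def IsHodge (m : ℕ) (s : Multiset (ZMod m)) : Prop :=
  (0 : ZMod m) ∉ s ∧ Even (Multiset.card s) ∧ s.sum = 0 ∧
    ∀ t : (ZMod m)ˣ, 2 * (s.map fun a => ((t : ZMod m) * a).val).sum = m * Multiset.card s

/-- The smallest family of multisets of residues modulo `m` which contains
* the members of a given family `base`,
* the pairs `{a, -a}`, `a ≠ 0`,
* for every odd prime `p ∣ m` and `a` with `p * a ≠ 0` the standard character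
  `{a, a + m/p, a + 2 * (m/p), ..., a + (p-1) * (m/p), - p * a}`,
* if `m` is even, for every `a` with `2 * a ≠ 0` the standard character
  `{a, a + m/2, - 2 * a, m/2}`,
and which is closed under union and under removing a pair `{a, -a}`. -/
inductive Generated (m : ℕ) (base : Multiset (ZMod m) → Prop) : Multiset (ZMod m) → Prop
  | ofBase (s : Multiset (ZMod m)) (hs : base s) : Generated m base s
  | pair (a : ZMod m) (ha : a ≠ 0) : Generated m base {a, -a}
  | standard (p : ℕ) (hp : p.Prime) (hp2 : p ≠ 2) (hpm : p ∣ m) (a : ZMod m)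
      (ha : (p : ZMod m) * a ≠ 0) :
      Generated m base
        (-((p : ZMod m) * a) ::ₘ
          (Multiset.range p).map fun i : ℕ => a + (i : ZMod m) * ((m / p : ℕ) : ZMod m))
  | standardTwo (hm : 2 ∣ m) (a : ZMod m) (ha : 2 * a ≠ 0) :
      Generated m base {a, a + ((m / 2 : ℕ) : ZMod m), -(2 * a), ((m / 2 : ℕ) : ZMod m)}
  | join (s t : Multiset (ZMod m)) (hs : Generated m base s) (ht : Generated m base t) :
      Generated m base (s + t)
  | cancel (a : ZMod m) (s : Multiset (ZMod m)) (h : Generated m base (a ::ₘ -a ::ₘ s)) :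
      Generated m base s

/-- The Hodge characters with four entries, i.e. those of Fermat surfaces. -/
def SurfaceCharacter (m : ℕ) (s : Multiset (ZMod m)) : Prop :=
  IsHodge m s ∧ Multiset.card s = 4

/-- The characters of degree `m` which come from Hodge characters of degree `m0`, by multiplication
by `m / m0` (pull back along the map from the Fermat variety of degree `m` to that of
degree `m0`). -/
def FromLevel (m m0 : ℕ) (s : Multiset (ZMod m)) : Prop :=
  ∃ s0 : Multiset (ZMod m0), IsHodge m0 s0 ∧
    s = s0.map fun b => (((m / m0) * b.val : ℕ) : ZMod m)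

/-- The degrees covered: all prime factors in `{2, 3, 5}`, or all in `{2, 3, 7}`, or a prime power
or twice a prime power, or `2 * 3 ^ a * 11 ^ b`, or `2 * 3 ^ a * 13 ^ b`. -/
def GoodDegree (m : ℕ) : Prop :=
  (∀ p : ℕ, p.Prime → p ∣ m → p = 2 ∨ p = 3 ∨ p = 5) ∨
  (∀ p : ℕ, p.Prime → p ∣ m → p = 2 ∨ p = 3 ∨ p = 7) ∨
  (∃ p k : ℕ, p.Prime ∧ (m = p ^ k ∨ m = 2 * p ^ k)) ∨
  (∃ a b : ℕ, m = 2 * 3 ^ a * 11 ^ b) ∨
  (∃ a b : ℕ, m = 2 * 3 ^ a * 13 ^ b)

end Pool.Agent.H916R2
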