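import Pool.Agent.H916R2.Descent
import Pool.Agent.H916R2.Defs

/-!
From relations in the universal odd quotient to membership in the closure `Generated`.
-/

namespace Pool.Agent.H916R2

open Finset

variable {m : ℕ}

/-- the odd basis function -/
def eps (a : ZMod m) : ZMod m → ℤ := Pi.single a 1 - Pi.single (-a) 1

/-- the odd function of a multiset -/
def EE (s : Multiset (ZMod m)) : ZMod m → ℤ := (s.map eps).sum

lemma eps_neg (a : ZMod m) : eps (-a) = - eps a := by
  unfold eps; rw [neg_neg]; abel

lemma eps_half {a : ZMod m} (h : a + a = 0) : eps a = 0 := by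
  unfold eps
  have : -a = a := neg_eq_of_add_eq_zero_right h
  rw [this, sub_self]

lemma EE_add (s t : Multiset (ZMod m)) : EE (s + t) = EE s + EE t := by
  unfold EE; rw [Multiset.map_add, Multiset.sum_add]

lemma EE_cons (a : ZMod m) (s : Multiset (ZMod m)) : EE (a ::ₘ s) = eps a + EE s := by
  unfold EE; rw [Multiset.map_cons, Multiset.sum_cons]

lemma EE_zero : EE (0 : Multiset (ZMod m)) = 0 := by unfold EE; simp

lemma EE_neg (s : Multiset (ZMod m)) : EE (s.map Neg.neg) = - EE s := by
  induction s using Multiset.induction_on with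
  | empty => simp [EE_zero]
  | cons a s ih =>
    rw [Multiset.map_cons, EE_cons, EE_cons, ih, eps_neg]; abel

lemma eps_apply (a b : ZMod m) : eps a b = (if b = a then 1 else 0) - (if -b = a then 1 else 0) := by
  unfold eps
  simp only [Pi.sub_apply, Pi.single_apply]
  congr 1
  by_cases h : -b = a
  · rw [if_pos h, if_pos (by rw [← h, neg_neg])]
  · rw [if_neg h, if_neg (fun h' => h (by rw [h', neg_neg]))]

lemma EE_apply (s : Multiset (ZMod m)) (b : ZMod m) :
    EE s b = (s.count b : ℤ) - s.count (-b) := by
  induction s using Multiset.induction_on with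
  | empty => simp [EE_zero]
  | cons a s ih =>
    rw [EE_cons, Pi.add_apply, ih, eps_apply, Multiset.count_cons, Multiset.count_cons]
    push_cast
    ring

lemma half_unique [NeZero m] {a b : ZMod m} (ha : a + a = 0) (hb : b + b = 0) (ha0 : a ≠ 0)
    (hb0 : b ≠ 0) : a = b := by
  have key : ∀ x : ZMod m, x + x = 0 → x ≠ 0 → 2 * x.val = m := by
    intro x hx hx0
    have h1 : ((x.val + x.val : ℕ) : ZMod m) = 0 := by
      push_cast; rw [ZMod.natCast_zmod_val]; exact hx
    rw [ZMod.natCast_eq_zero_iff] at h1
    obtain ⟨k, hk⟩ := h1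
    have hlt := ZMod.val_lt x
    have hpos : 0 < x.val := Nat.pos_of_ne_zero (fun h => hx0 ((ZMod.val_eq_zero x).mp h))
    have hk1 : k = 1 := by
      have h2 : k < 2 := by
        by_contra hcon
        have : m * 2 ≤ m * k := Nat.mul_le_mul_left _ (by omega)
        omega
      have h3 : k ≠ 0 := by rintro rfl; omega
      omega
    subst hk1
    omega
  apply ZMod.val_injective m
  have h1 := key a ha ha0
  have h2 := key b hb hb0
  omega

section

variable {base : Multiset (ZMod m) → Prop}

/-- Cancelling a multiset with trivial odd function. -/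
lemma uncancel [NeZero m] : ∀ (n : ℕ) (u s : Multiset (ZMod m)), Multiset.card u = n →
    (0 : ZMod m) ∉ u → Even (Multiset.card u) → EE u = 0 → Generated m base (u + s) →
    Generated m base s := by
  intro n
  induction n using Nat.strong_induction_on with
  | _ n ih =>
  intro u s hcard h0 heven hE hg
  rcases Multiset.empty_or_exists_mem u with rfl | ⟨a, ha⟩
  · rwa [zero_add] at hg
  -- removal of a pair
  have remove : ∀ (b : ZMod m) (u' : Multiset (ZMod m)), u = b ::ₘ -b ::ₘ u' → Generated m base s := by
    intro b u' hu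
    rw [hu] at hcard h0 heven hE hg
    have hc : Multiset.card u' + 2 = n := by
      rw [← hcard]; simp
    refine ih (Multiset.card u') (by omega) u' s rfl ?_ ?_ ?_ ?_
    · intro h; exact h0 (Multiset.mem_cons_of_mem (Multiset.mem_cons_of_mem h))
    · simp only [Multiset.card_cons] at heven
      rw [Nat.even_add_one, Nat.even_add_one, not_not] at heven
      exact heven
    · rw [EE_cons, EE_cons, eps_neg] at hE
      simpa using hE
    · rw [Multiset.cons_add, Multiset.cons_add] at hg
      exact Generated.cancel b _ hg
  by_cases hex : ∃ b ∈ u, b + b ≠ 0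
  · obtain ⟨b, hb, hbb⟩ := hex
    have hne : b ≠ -b := by
      intro h
      apply hbb
      nth_rewrite 2 [h]
      exact add_neg_cancel b
    have h1 := congrFun hE b
    rw [EE_apply, Pi.zero_apply] at h1
    have h2 : 0 < u.count b := Multiset.count_pos.mpr hb
    have h3 : 0 < u.count (-b) := by omega
    obtain ⟨u1, hu1⟩ := Multiset.exists_cons_of_mem hb
    have h4 : -b ∈ u1 := by
      have : -b ∈ u := Multiset.count_pos.mp h3
      rw [hu1] at this
      rcases Multiset.mem_cons.mp this with h | h
      · exact absurd h.symm hne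
      · exact h
    obtain ⟨u2, hu2⟩ := Multiset.exists_cons_of_mem h4
    exact remove b u2 (by rw [hu1, hu2])
  · push Not at hex
    -- all elements are the same element of order two
    have haa := hex a ha
    have ha0 : a ≠ 0 := fun h => h0 (h ▸ ha)
    obtain ⟨u1, hu1⟩ := Multiset.exists_cons_of_mem ha
    rcases Multiset.empty_or_exists_mem u1 with h | ⟨b, hb⟩
    · exfalso
      rw [hu1, h] at heven
      simp at heven
    · have hbu : b ∈ u := by rw [hu1]; exact Multiset.mem_cons_of_mem hb
      have hbb := hex b hbu
      have hb0 : b ≠ 0 := fun h => h0 (h ▸ hbu)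
      have hab : a = b := half_unique haa hbb ha0 hb0
      have hna : -a = a := neg_eq_of_add_eq_zero_right haa
      obtain ⟨u2, hu2⟩ := Multiset.exists_cons_of_mem hb
      exact remove a u2 (by rw [hu1, hu2, hna, hab])

lemma mem_coset_ne_zero {p : ℕ} (hpm : p ∣ m) {a : ZMod m} (ha : (p : ZMod m) * a ≠ 0) (i : ℕ) :
    a + (i : ZMod m) * ((m / p : ℕ) : ZMod m) ≠ 0 := by
  intro h
  apply ha
  have h1 : (p : ZMod m) * ((m / p : ℕ) : ZMod m) = 0 := by
    have : ((p * (m / p) : ℕ) : ZMod m) = 0 := by rw [Nat.mul_div_cancel' hpm]; simp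
    simpa using this
  have h2 := congrArg (fun x => (p : ZMod m) * x) h
  simp only [mul_zero] at h2
  linear_combination h2 - (i : ZMod m) * h1

lemma Generated.good [NeZero m] (hb : ∀ s, base s → (0 : ZMod m) ∉ s ∧ Even (Multiset.card s))
    {s : Multiset (ZMod m)} (h : Generated m base s) :
    (0 : ZMod m) ∉ s ∧ Even (Multiset.card s) := by
  induction h with
  | ofBase s hs => exact hb s hs
  | pair a ha =>
    constructor
    · simp only [Multiset.insert_eq_cons, Multiset.mem_cons, Multiset.mem_singleton, not_or]
      exact ⟨Ne.symm ha, Ne.symm (neg_ne_zero.mpr ha)⟩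
    · simp
  | standard p hp hp2 hpm a ha =>
    constructor
    · rw [Multiset.mem_cons, not_or]
      refine ⟨Ne.symm (neg_ne_zero.mpr ha), ?_⟩
      intro h
      obtain ⟨i, _, hi⟩ := Multiset.mem_map.mp h
      exact mem_coset_ne_zero hpm ha i hi
    · rw [Multiset.card_cons, Multiset.card_map, Multiset.card_range]
      exact (hp.odd_of_ne_two hp2).add_one
  | standardTwo hm a ha =>
    have h2 : (2 : ZMod m) * ((m / 2 : ℕ) : ZMod m) = 0 := by
      have : ((2 * (m / 2) : ℕ) : ZMod m) = 0 := by rw [Nat.mul_div_cancel' hm]; simp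
      simpa using this
    have hm0 : ((m / 2 : ℕ) : ZMod m) ≠ 0 := by
      intro h
      rw [ZMod.natCast_eq_zero_iff] at h
      have hmp := NeZero.pos m
      have : 0 < m / 2 := Nat.div_pos (Nat.le_of_dvd hmp hm) (by norm_num)
      have := Nat.le_of_dvd this h
      omega
    constructor
    · simp only [Multiset.insert_eq_cons, Multiset.mem_cons, Multiset.mem_singleton, not_or]
      refine ⟨?_, ?_, Ne.symm (neg_ne_zero.mpr ha), Ne.symm hm0⟩
      · rintro rfl; exact ha (by simp)
      · intro h; apply ha; linear_combination (-2 : ZMod m) * h - h2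
    · simp only [Multiset.insert_eq_cons, Multiset.card_cons, Multiset.card_singleton]
      decide
  | join s t hs ht ihs iht =>
    refine ⟨?_, ?_⟩
    · rw [Multiset.mem_add, not_or]; exact ⟨ihs.1, iht.1⟩
    · rw [Multiset.card_add]; exact ihs.2.add iht.2
  | cancel a s h ih =>
    refine ⟨?_, ?_⟩
    · intro h'; exact ih.1 (Multiset.mem_cons_of_mem (Multiset.mem_cons_of_mem h'))
    · have := ih.2
      simp only [Multiset.card_cons] at this
      rw [Nat.even_add_one, Nat.even_add_one, not_not] at this
      exact this

lemma sum_singleton_range {α : Type*} (p : ℕ) (f : ℕ → α) :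
    ∑ i ∈ range p, ({f i} : Multiset α) = (Multiset.range p).map f := by
  induction p with
  | zero => simp
  | succ p ih =>
    rw [sum_range_succ, ih, Multiset.range_succ, Multiset.map_cons, add_comm]
    rfl

lemma Generated.neg [NeZero m] (hbn : ∀ s, base s → base (s.map Neg.neg))
    {s : Multiset (ZMod m)} (h : Generated m base s) : Generated m base (s.map Neg.neg) := by
  induction h with
  | ofBase s hs => exact Generated.ofBase _ (hbn s hs)
  | pair a ha =>
    have := Generated.pair (base := base) (-a) (neg_ne_zero.mpr ha)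
    simpa using this
  | standard p hp hp2 hpm a ha =>
    have h1 := Generated.standard (base := base) p hp hp2 hpm (-a) (by
      rw [mul_neg]; exact neg_ne_zero.mpr ha)
    have h2 : (-((p : ZMod m) * a) ::ₘ
          (Multiset.range p).map fun i : ℕ => a + (i : ZMod m) * ((m / p : ℕ) : ZMod m)).map Neg.neg =
        (-((p : ZMod m) * (-a)) ::ₘ
          (Multiset.range p).map fun i : ℕ => (-a) + (i : ZMod m) * ((m / p : ℕ) : ZMod m)) := by
      rw [Multiset.map_cons, mul_neg]
      congr 1
      rw [Multiset.map_map]
      have h3 := coset_sum_unit (m := m) (fun x => ({x} : Multiset (ZMod m)))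
        (Nat.mul_div_cancel' hpm) (-1 : (ZMod m)ˣ) a
      simp only [Units.val_neg, Units.val_one, neg_mul, one_mul] at h3
      rw [sum_singleton_range p (fun i : ℕ => -(a + (i : ZMod m) * ((m / p : ℕ) : ZMod m))),
        sum_singleton_range p (fun i : ℕ => -a + (i : ZMod m) * ((m / p : ℕ) : ZMod m))] at h3
      exact h3
    rw [h2]
    exact h1
  | standardTwo hm a ha =>
    have h1 := Generated.standardTwo (base := base) hm (-a) (by
      rw [mul_neg]; exact neg_ne_zero.mpr ha)
    have h2 : (2 : ZMod m) * ((m / 2 : ℕ) : ZMod m) = 0 := by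
      have : ((2 * (m / 2) : ℕ) : ZMod m) = 0 := by rw [Nat.mul_div_cancel' hm]; simp
      simpa using this
    have h3 : -((m / 2 : ℕ) : ZMod m) = ((m / 2 : ℕ) : ZMod m) := by linear_combination -h2
    have h4 : ({a, a + ((m / 2 : ℕ) : ZMod m), -(2 * a), ((m / 2 : ℕ) : ZMod m)} :
        Multiset (ZMod m)).map Neg.neg =
        {-a, -a + ((m / 2 : ℕ) : ZMod m), -(2 * -a), ((m / 2 : ℕ) : ZMod m)} := by
      simp only [Multiset.insert_eq_cons, Multiset.map_cons, Multiset.map_singleton]
      rw [neg_add, h3, mul_neg]
    rw [h4]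
    exact h1
  | join s t hs ht ihs iht =>
    rw [Multiset.map_add]
    exact Generated.join _ _ ihs iht
  | cancel a s h ih =>
    rw [Multiset.map_cons, Multiset.map_cons] at ih
    exact Generated.cancel (-a) _ ih

/-- the pairs attached to a nonempty multiset -/
lemma generated_add_neg (s : Multiset (ZMod m)) (h0 : (0 : ZMod m) ∉ s) (hs : s ≠ 0) :
    Generated m base (s + s.map Neg.neg) := by
  induction s using Multiset.induction_on with
  | empty => exact absurd rfl hs
  | cons a s ih =>
    have ha : a ≠ 0 := fun h => h0 (by rw [h]; exact Multiset.mem_cons_self _ _)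
    have h1 : (a ::ₘ s) + (a ::ₘ s).map Neg.neg = {a, -a} + (s + s.map Neg.neg) := by
      rw [Multiset.map_cons, Multiset.insert_eq_cons]
      rw [Multiset.cons_add, Multiset.add_cons, ← Multiset.singleton_add a, ← Multiset.singleton_add (-a),
        ← Multiset.singleton_add a]
      rw [add_assoc]
    rw [h1]
    by_cases hs0 : s = 0
    · subst hs0
      simpa using Generated.pair (base := base) a ha
    · exact Generated.join _ _ (Generated.pair a ha)
        (ih (fun h => h0 (Multiset.mem_cons_of_mem h)) hs0)

/-- the subgroup generated by the odd functions of the closure -/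
def LL (m : ℕ) (base : Multiset (ZMod m) → Prop) : AddSubgroup (ZMod m → ℤ) :=
  AddSubgroup.closure {y | ∃ s, Generated m base s ∧ EE s = y}

lemma generated_of_mem_LL [NeZero m]
    (hb : ∀ s, base s → (0 : ZMod m) ∉ s ∧ Even (Multiset.card s))
    (hbn : ∀ s, base s → base (s.map Neg.neg))
    {s : Multiset (ZMod m)} (h0 : (0 : ZMod m) ∉ s) (heven : Even (Multiset.card s)) (hs : s ≠ 0)
    (hL : EE s ∈ LL m base) : Generated m base s := by
  -- a pair exists
  obtain ⟨a, ha⟩ := Multiset.exists_mem_of_ne_zero hs
  have ha0 : a ≠ 0 := fun h => h0 (h ▸ ha)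
  have key : ∀ y ∈ LL m base, ∃ t, Generated m base t ∧ EE t = y := by
    intro y hy
    induction hy using AddSubgroup.closure_induction with
    | mem y hy => exact hy
    | zero =>
      refine ⟨{a, -a}, Generated.pair a ha0, ?_⟩
      rw [Multiset.insert_eq_cons, EE_cons]
      unfold EE
      simp [eps_neg]
    | add y z _ _ ihy ihz =>
      obtain ⟨t1, ht1, rfl⟩ := ihy
      obtain ⟨t2, ht2, rfl⟩ := ihz
      exact ⟨t1 + t2, Generated.join _ _ ht1 ht2, EE_add _ _⟩
    | neg y _ ihy =>
      obtain ⟨t1, ht1, rfl⟩ := ihy
      exact ⟨t1.map Neg.neg, ht1.neg hbn, EE_neg _⟩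
  obtain ⟨t, ht, htE⟩ := key _ hL
  have htg := ht.good hb
  have h1 : Generated m base (t + (s + s.map Neg.neg)) :=
    Generated.join _ _ ht (generated_add_neg s h0 hs)
  have h2 : t + (s + s.map Neg.neg) = (t + s.map Neg.neg) + s := by
    rw [add_comm s, add_assoc]
  rw [h2] at h1
  refine uncancel _ (t + s.map Neg.neg) s rfl ?_ ?_ ?_ h1
  · rw [Multiset.mem_add, not_or]
    refine ⟨htg.1, ?_⟩
    intro h
    obtain ⟨b, hb', hb0⟩ := Multiset.mem_map.mp h
    exact h0 (by rwa [neg_eq_zero.mp hb0] at hb')
  · rw [Multiset.card_add, Multiset.card_map]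
    exact htg.2.add heven
  · rw [EE_add, EE_neg, htE, add_neg_cancel]

/-- the universal odd distribution modulo the closure -/
def cQ (m : ℕ) (base : Multiset (ZMod m) → Prop) (a : ZMod m) : (ZMod m → ℤ) ⧸ (LL m base) :=
  QuotientAddGroup.mk (eps a)

lemma cQ_sum (s : Multiset (ZMod m)) :
    (s.map (cQ m base)).sum = QuotientAddGroup.mk (EE s) := by
  induction s using Multiset.induction_on with
  | empty => simp [EE_zero]
  | cons a s ih =>
    rw [Multiset.map_cons, Multiset.sum_cons, ih, EE_cons, QuotientAddGroup.mk_add]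
    rfl

lemma cQ_sum_eq_zero {s : Multiset (ZMod m)} (h : Generated m base s) :
    (s.map (cQ m base)).sum = 0 := by
  rw [cQ_sum, QuotientAddGroup.eq_zero_iff]
  exact AddSubgroup.subset_closure ⟨s, h, rfl⟩

lemma cQ_oddDist [NeZero m] : OddDist (cQ m base) where
  neg := fun a => by
    unfold cQ; rw [eps_neg, QuotientAddGroup.mk_neg]
  half := fun a ha => by
    unfold cQ; rw [eps_half ha, QuotientAddGroup.mk_zero]
  dist := fun p d hp hpd a => by
    have hneg : ∀ b, cQ m base (-b) = - cQ m base b := fun b => by
      unfold cQ; rw [eps_neg, QuotientAddGroup.mk_neg]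
    have hhalf : ∀ b, b + b = 0 → cQ m base b = 0 := fun b hb => by
      unfold cQ; rw [eps_half hb, QuotientAddGroup.mk_zero]
    have hpm : p ∣ m := Dvd.intro d hpd
    have hdp : m / p = d := by rw [← hpd, Nat.mul_div_cancel_left _ hp.pos]
    by_cases h2 : p = 2
    · subst h2
      have hm2 : (2 : ZMod m) * (d : ZMod m) = 0 := by
        have : ((2 * d : ℕ) : ZMod m) = 0 := by rw [hpd]; simp
        simpa using this
      have hd0 : cQ m base (d : ZMod m) = 0 := hhalf _ (by rw [← two_mul]; exact hm2)
      have hsum : ∑ i ∈ range 2, cQ m base (a + (i : ZMod m) * (d : ZMod m)) =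
          cQ m base a + cQ m base (a + d) := by
        rw [sum_range_succ, sum_range_one]; simp
      rw [hsum]
      by_cases ha : (2 : ZMod m) * a = 0
      · push_cast
        rw [ha, hhalf a (by rw [← two_mul]; exact ha), hhalf (a + d) (by linear_combination ha + hm2),
          hhalf 0 (by simp), add_zero]
      · have h := cQ_sum_eq_zero (Generated.standardTwo (base := base) hpm a ha)
        rw [hdp] at h
        simp only [Multiset.insert_eq_cons, Multiset.map_cons, Multiset.map_singleton,
          Multiset.sum_cons, Multiset.sum_singleton] at h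
        rw [hd0, hneg, add_zero] at h
        push_cast
        rw [← sub_eq_zero]
        rw [← h]; abel
    · by_cases ha : (p : ZMod m) * a = 0
      · -- torsion coset
        rw [ha, hhalf 0 (by simp)]
        have hmv : m ∣ p * a.val := by
          rw [← ZMod.natCast_eq_zero_iff]; push_cast; rw [ZMod.natCast_zmod_val]; exact ha
        have hdv : d ∣ a.val := by
          have hmv' : p * d ∣ p * a.val := by rw [hpd]; exact hmv
          exact Nat.dvd_of_mul_dvd_mul_left hp.pos hmv'
        obtain ⟨j, hj⟩ := hdv
        have haj : a = 0 + (j : ZMod m) * (d : ZMod m) := by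
          rw [zero_add]
          calc a = ((a.val : ℕ) : ZMod m) := (ZMod.natCast_zmod_val a).symm
            _ = _ := by rw [hj]; push_cast; ring
        -- work with integer valued functions
        have h1 : ∑ i ∈ range p, eps (a + (i : ZMod m) * (d : ZMod m)) =
            ∑ i ∈ range p, eps (0 + (i : ZMod m) * (d : ZMod m)) := by
          conv_lhs => rw [haj]
          exact coset_sum_shift_mul (fun x => eps x) hpd 0 j
        have h2 := coset_sum_unit (m := m) (fun x => eps x) hpd (-1 : (ZMod m)ˣ) 0
        simp only [Units.val_neg, Units.val_one, neg_mul, one_mul, neg_zero] at h2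
        have h3 : ∑ i ∈ range p, eps (-(0 + (i : ZMod m) * (d : ZMod m))) =
            - ∑ i ∈ range p, eps (0 + (i : ZMod m) * (d : ZMod m)) := by
          rw [← sum_neg_distrib]
          exact sum_congr rfl fun i _ => eps_neg _
        rw [h3] at h2
        have h4 : ∑ i ∈ range p, eps (0 + (i : ZMod m) * (d : ZMod m)) = 0 := by
          funext b
          have := congrFun h2 b
          simp only [Pi.neg_apply] at this
          simp only [Pi.zero_apply]
          omega
        have h5 : ∑ i ∈ range p, cQ m base (a + (i : ZMod m) * (d : ZMod m)) =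
            QuotientAddGroup.mk (∑ i ∈ range p, eps (a + (i : ZMod m) * (d : ZMod m))) := by
          rw [QuotientAddGroup.mk_sum]
          rfl
        rw [h5, h1, h4, QuotientAddGroup.mk_zero]
      · have h := cQ_sum_eq_zero (Generated.standard (base := base) p hp h2 hpm a ha)
        rw [hdp, Multiset.map_cons, Multiset.sum_cons, hneg, Multiset.map_map] at h
        have h6 : ((Multiset.range p).map (cQ m base ∘ fun i : ℕ => a + (i : ZMod m) * (d : ZMod m))).sum =
            ∑ i ∈ range p, cQ m base (a + (i : ZMod m) * (d : ZMod m)) := rfl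
        rw [h6] at h
        exact (neg_add_eq_zero.mp h).symm

end

end Pool.Agent.H916R2
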