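import Pool.Agent.H916R2.Gen

/-!
Counting the generating set.
-/

namespace Pool.Agent.H916R2

open Finset

lemma card_le_prod {m : ℕ} (hm : m ≠ 0) (R : ℕ → ℕ → Prop) [∀ q, DecidablePred (R q)] :
    ((range m).filter (fun x => ∀ q ∈ m.primeFactors, R q (x % q ^ (m.factorization q)))).card ≤
      ∏ q ∈ m.primeFactors, ((range (q ^ (m.factorization q))).filter (R q)).card := by
  rw [← Finset.card_pi]
  apply Finset.card_le_card_of_injOn (fun x q _ => x % q ^ (m.factorization q))
  · intro x hx
    simp only [coe_filter, mem_range, Set.mem_ofPred_eq] at hx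
    simp only [mem_coe, Finset.mem_pi, mem_filter, mem_range]
    intro q hq
    exact ⟨Nat.mod_lt _ (pow_pos (Nat.prime_of_mem_primeFactors hq).pos _), hx.2 q hq⟩
  · intro x hx y hy hxy
    simp only [coe_filter, mem_range, Set.mem_ofPred_eq] at hx hy
    have h1 : ∀ q ∈ m.primeFactors, x % q ^ (m.factorization q) = y % q ^ (m.factorization q) := by
      intro q hq
      exact congrFun (congrFun hxy q) hq
    have h2 : ∀ q ∈ m.primeFactors, ((q ^ (m.factorization q) : ℕ) : ℤ) ∣ (y : ℤ) - x := by
      intro q hq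
      exact (Nat.modEq_iff_dvd).mp (h1 q hq)
    have h3 : (∏ q ∈ m.primeFactors, ((q ^ (m.factorization q) : ℕ) : ℤ)) ∣ (y : ℤ) - x := by
      apply Finset.prod_dvd_of_coprime _ h2
      intro q hq q' hq' hne
      rw [Function.onFun, Nat.isCoprime_iff_coprime]
      exact Nat.coprime_pow_primes _ _ (Nat.prime_of_mem_primeFactors hq)
        (Nat.prime_of_mem_primeFactors hq') hne
    have h4 : (∏ q ∈ m.primeFactors, ((q ^ (m.factorization q) : ℕ) : ℤ)) = m := by
      rw [← Nat.cast_prod]
      congr 1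
      exact Nat.prod_factorization_pow_eq_self hm
    rw [h4] at h3
    have h5 : x ≡ y [MOD m] := (Nat.modEq_iff_dvd).mpr h3
    exact Nat.ModEq.eq_of_lt_of_lt h5 hx.1 hy.1

/-- the local condition at `p` for residues -/
def RP (p e r : ℕ) : Prop := ¬ p ∣ r ∧ 2 * (r % p ^ e) < p ^ e ∧ p ^ e ≤ r

instance (p e : ℕ) : DecidablePred (RP p e) := fun r => by unfold RP; infer_instance

lemma card_J {p e : ℕ} (hp : p.Prime) (he : 1 ≤ e) :
    2 * ((range (p ^ e)).filter (fun s => ¬ p ∣ s ∧ 2 * s < p ^ e)).card ≤ Nat.totient (p ^ e) := by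
  set N := p ^ e with hN
  set J := (range N).filter (fun s => ¬ p ∣ s ∧ 2 * s < N) with hJ
  have hpN : p ∣ N := dvd_pow_self p (by omega)
  have hinj : Set.InjOn (fun s => N - s) (J : Set ℕ) := by
    intro a ha b hb h
    simp only [hJ, coe_filter, mem_range, Set.mem_ofPred_eq] at ha hb
    simp only at h
    omega
  have hcard : (J.image (fun s => N - s)).card = J.card := Finset.card_image_of_injOn hinj
  have hdisj : Disjoint J (J.image (fun s => N - s)) := by
    rw [Finset.disjoint_left]
    intro a ha ha'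
    simp only [hJ, mem_filter, mem_range, mem_image] at ha ha'
    obtain ⟨s, hs, rfl⟩ := ha'
    omega
  have hsub : J ∪ J.image (fun s => N - s) ⊆ (range N).filter (Nat.Coprime N) := by
    intro a ha
    rw [mem_union] at ha
    simp only [hJ, mem_filter, mem_range, mem_image] at ha ⊢
    rcases ha with ha | ⟨s, hs, rfl⟩
    · refine ⟨ha.1, ?_⟩
      exact Nat.Coprime.pow_left _ ((Nat.Prime.coprime_iff_not_dvd hp).mpr ha.2.1)
    · have hs0 : s ≠ 0 := by
        rintro rfl
        exact hs.2.1 (dvd_zero p)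
      refine ⟨by omega, ?_⟩
      apply Nat.Coprime.pow_left
      rw [Nat.Prime.coprime_iff_not_dvd hp]
      intro h
      apply hs.2.1
      have h2 : p ∣ (N - s) + s := by rw [Nat.sub_add_cancel (by omega)]; exact hpN
      exact (Nat.dvd_add_right h).mp h2
  have := Finset.card_le_card hsub
  rw [Finset.card_union_of_disjoint hdisj, hcard] at this
  have h3 : Nat.totient N = ((range N).filter (Nat.Coprime N)).card := rfl
  rw [h3]
  omega

lemma card_RP {p e : ℕ} (hp : p.Prime) (he : 1 ≤ e) :
    2 * p * ((range (p ^ (e + 1))).filter (RP p e)).card ≤ (p - 1) * (p ^ e * (p - 1)) := by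
  set J := (range (p ^ e)).filter (fun s => ¬ p ∣ s ∧ 2 * s < p ^ e) with hJ
  have hpe : 0 < p ^ e := pow_pos hp.pos e
  have h1 : ((range (p ^ (e + 1))).filter (RP p e)).card ≤ ((Ico 1 p) ×ˢ J).card := by
    apply Finset.card_le_card_of_injOn (fun r => (r / p ^ e, r % p ^ e))
    · intro r hr
      simp only [coe_filter, mem_range, Set.mem_ofPred_eq, RP] at hr
      simp only [hJ, coe_product, Set.mem_prod, mem_coe, mem_Ico, mem_filter, mem_range]
      obtain ⟨hr1, hr2, hr3, hr4⟩ := hr
      refine ⟨⟨?_, ?_⟩, Nat.mod_lt _ hpe, ?_, hr3⟩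
      · exact (Nat.one_le_div_iff hpe).mpr hr4
      · rw [Nat.div_lt_iff_lt_mul hpe]
        calc r < p ^ (e + 1) := hr1
          _ = p * p ^ e := by ring
      · intro h
        exact hr2 ((Nat.dvd_mod_iff (dvd_pow_self p (by omega))).mp h)
    · intro r _ r' _ h
      simp only [Prod.mk.injEq] at h
      rw [← Nat.div_add_mod r (p ^ e), ← Nat.div_add_mod r' (p ^ e), h.1, h.2]
  rw [Finset.card_product, Nat.card_Ico] at h1
  have h2 := card_J hp he
  rw [← hJ] at h2
  obtain ⟨k, rfl⟩ : ∃ k, e = k + 1 := ⟨e - 1, by omega⟩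
  rw [Nat.totient_prime_pow_succ hp] at h2
  calc 2 * p * ((range (p ^ (k + 1 + 1))).filter (RP p (k + 1))).card
      ≤ 2 * p * ((p - 1) * J.card) := Nat.mul_le_mul_left _ h1
    _ = (p - 1) * p * (2 * J.card) := by ring
    _ ≤ (p - 1) * p * (p ^ k * (p - 1)) := Nat.mul_le_mul_left _ h2
    _ = (p - 1) * (p ^ (k + 1) * (p - 1)) := by ring

lemma card_TT {q f : ℕ} (hq : q.Prime) :
    ((range (q ^ (f + 1))).filter (fun r => r = 0 ∨ q ^ f < r)).card ≤ q ^ f * (q - 1) := by
  have hqf : 0 < q ^ f := pow_pos hq.pos f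
  have hlt : q ^ f < q ^ (f + 1) := Nat.pow_lt_pow_right hq.one_lt (Nat.lt_succ_self f)
  have h1 : (range (q ^ (f + 1))).filter (fun r => r = 0 ∨ q ^ f < r) ⊆
      {0} ∪ Ioo (q ^ f) (q ^ (f + 1)) := by
    intro r hr
    simp only [mem_filter, mem_range, mem_union, mem_singleton, mem_Ioo] at hr ⊢
    rcases hr.2 with h | h
    · left; exact h
    · right; exact ⟨h, hr.1⟩
  have h2 := (Finset.card_le_card h1).trans (Finset.card_union_le _ _)
  rw [Finset.card_singleton, Nat.card_Ioo] at h2
  have h3 : q ^ f * (q - 1) = q ^ (f + 1) - q ^ f := by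
    rw [Nat.mul_sub, mul_one, pow_succ]
  rw [h3]
  omega

lemma card_InB {m p : ℕ} (hm : m ≠ 0) (hp : p.Prime) (hp2 : p * p ∣ m) (S : Finset ℕ)
    (hS : ∀ x ∈ S, x < m ∧ InB p m x) :
    2 * p * S.card ≤ (p - 1) * Nat.totient m := by
  classical
  have hpm : p ∣ m := dvd_trans (dvd_mul_right p p) hp2
  have hpmem : p ∈ m.primeFactors := Nat.mem_primeFactors.mpr ⟨hp, hpm, hm⟩
  obtain ⟨e, u, he, hmu, hpu, hmp⟩ := decomp hm hp hpm
  have he1 : 1 ≤ e := by
    have h := (hp.pow_dvd_iff_le_factorization (k := 2) hm).mp (by rwa [pow_two])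
    omega
  let R : ℕ → ℕ → Prop := fun q r =>
    if q = p then RP p e r else (r = 0 ∨ q ^ (m.factorization q - 1) < r)
  have hsub : S ⊆ (range m).filter (fun x => ∀ q ∈ m.primeFactors, R q (x % q ^ (m.factorization q))) := by
    intro x hx
    obtain ⟨hxm, hx1, hx2, hx3, hx4⟩ := hS x hx
    simp only [mem_filter, mem_range]
    refine ⟨hxm, fun q hq => ?_⟩
    by_cases hqp : q = p
    · subst hqp
      simp only [R, if_true]
      unfold PP at hx2
      unfold PT at hx3
      rw [he, Nat.add_sub_cancel] at hx2 hx3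
      rw [he]
      refine ⟨?_, ?_, hx3⟩
      · intro h
        exact hx1 ((Nat.dvd_mod_iff (dvd_pow_self q (by omega))).mp h)
      · rw [Nat.mod_mod_of_dvd _ (pow_dvd_pow q (Nat.le_succ e))]
        exact hx2
    · simp only [R, if_neg hqp]
      exact hx4 q hq hqp
  have h1 := (Finset.card_le_card hsub).trans (card_le_prod hm R)
  rw [← Finset.mul_prod_erase _ _ hpmem] at h1
  have hRp : ((range (p ^ (m.factorization p))).filter (R p)).card ≤
      ((range (p ^ (e + 1))).filter (RP p e)).card := by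
    apply Finset.card_le_card
    intro r hr
    simp only [mem_filter, mem_range, R, if_true, he] at hr ⊢
    exact hr
  have h2 : ∏ q ∈ m.primeFactors.erase p, ((range (q ^ (m.factorization q))).filter (R q)).card ≤
      ∏ q ∈ m.primeFactors.erase p, (q ^ (m.factorization q - 1) * (q - 1)) := by
    apply Finset.prod_le_prod'
    intro q hq
    rw [Finset.mem_erase] at hq
    have hqpr : q.Prime := Nat.prime_of_mem_primeFactors hq.2
    have hf : 0 < m.factorization q := hqpr.factorization_pos_of_dvd hm (Nat.dvd_of_mem_primeFactors hq.2)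
    obtain ⟨f, hf'⟩ : ∃ f, m.factorization q = f + 1 := ⟨m.factorization q - 1, by omega⟩
    have := card_TT (f := f) hqpr
    have h0 : q ^ (m.factorization q - 1) * (q - 1) = q ^ f * (q - 1) := by
      rw [hf', Nat.add_sub_cancel]
    rw [h0]
    refine le_trans (Finset.card_le_card ?_) this
    intro r hr
    simp only [mem_filter, mem_range, R, if_neg hq.1, hf', Nat.add_sub_cancel] at hr ⊢
    exact hr
  have h3 : Nat.totient m = (p ^ e * (p - 1)) *
      ∏ q ∈ m.primeFactors.erase p, (q ^ (m.factorization q - 1) * (q - 1)) := by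
    rw [Nat.totient_eq_prod_factorization hm, Finsupp.prod, Nat.support_factorization,
      ← Finset.mul_prod_erase _ _ hpmem, he, Nat.add_sub_cancel]
  calc 2 * p * S.card
      ≤ 2 * p * (((range (p ^ (m.factorization p))).filter (R p)).card *
        ∏ q ∈ m.primeFactors.erase p, ((range (q ^ (m.factorization q))).filter (R q)).card) :=
        Nat.mul_le_mul_left _ h1
    _ ≤ 2 * p * (((range (p ^ (e + 1))).filter (RP p e)).card *
        ∏ q ∈ m.primeFactors.erase p, ((range (q ^ (m.factorization q))).filter (R q)).card) :=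
        Nat.mul_le_mul_left _ (Nat.mul_le_mul_right _ hRp)
    _ = (2 * p * ((range (p ^ (e + 1))).filter (RP p e)).card) *
        ∏ q ∈ m.primeFactors.erase p, ((range (q ^ (m.factorization q))).filter (R q)).card := by ring
    _ ≤ ((p - 1) * (p ^ e * (p - 1))) *
        ∏ q ∈ m.primeFactors.erase p, (q ^ (m.factorization q - 1) * (q - 1)) :=
        Nat.mul_le_mul (card_RP hp he1) h2
    _ = (p - 1) * Nat.totient m := by rw [h3]; ring

end Pool.Agent.H916R2
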