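import Pool.Agent.H916R2.Indep
import Pool.Agent.H916R2.Count

/-!
The descent theorem: relations of level `p * d` (with `p ∣ d`) among odd distributions reduce to
relations of level `d`.
-/

namespace Pool.Agent.H916R2

open Finset

/-- Odd distributions on `ZMod m`. -/
structure OddDist {m : ℕ} {Q : Type*} [AddCommGroup Q] (c : ZMod m → Q) : Prop where
  neg : ∀ a, c (-a) = - c a
  half : ∀ a, a + a = 0 → c a = 0
  dist : ∀ p d : ℕ, p.Prime → p * d = m → ∀ a,
    ∑ i ∈ range p, c (a + (i : ZMod m) * (d : ZMod m)) = c ((p : ZMod m) * a)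

/-- Relations satisfied by the sawtooth and all its Galois conjugates. -/
def Rel {m : ℕ} [NeZero m] (x : ZMod m → ℤ) : Prop :=
  ∀ t : (ZMod m)ˣ, ∑ a, x a * saw ((t : ZMod m) * a) = 0

/-- The embedding of level `m0` into level `m`, multiplication by `k`. -/
def iota (k : ℕ) {m0 m : ℕ} (b : ZMod m0) : ZMod m := ((k * b.val : ℕ) : ZMod m)

lemma iota_natCast {k m0 m : ℕ} (h : k * m0 = m) (n : ℕ) :
    (iota k ((n : ℕ) : ZMod m0) : ZMod m) = ((k * n : ℕ) : ZMod m) := by
  unfold iota
  rw [ZMod.val_natCast, ZMod.natCast_eq_natCast_iff', ← h, Nat.mul_mod_mul_left,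
    Nat.mul_mod_mul_left, Nat.mod_mod]

lemma iota_add {k m0 m : ℕ} [NeZero m0] (h : k * m0 = m) (a b : ZMod m0) :
    (iota k (a + b) : ZMod m) = iota k a + iota k b := by
  have h1 : a + b = ((a.val + b.val : ℕ) : ZMod m0) := by
    push_cast
    rw [ZMod.natCast_zmod_val, ZMod.natCast_zmod_val]
  rw [h1, iota_natCast h]
  unfold iota
  push_cast; ring

lemma iota_zero {k m0 m : ℕ} : (iota k (0 : ZMod m0) : ZMod m) = 0 := by
  unfold iota; simp

lemma iota_neg {k m0 m : ℕ} [NeZero m0] (h : k * m0 = m) (a : ZMod m0) :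
    (iota k (-a) : ZMod m) = - iota k a := by
  have := iota_add h a (-a)
  rw [add_neg_cancel, iota_zero] at this
  exact (neg_eq_of_add_eq_zero_right this.symm).symm

lemma iota_natMul {k m0 m : ℕ} [NeZero m0] (h : k * m0 = m) (n : ℕ) (a : ZMod m0) :
    (iota k ((n : ZMod m0) * a) : ZMod m) = (n : ZMod m) * iota k a := by
  have h1 : (n : ZMod m0) * a = ((n * a.val : ℕ) : ZMod m0) := by
    push_cast
    rw [ZMod.natCast_zmod_val]
  rw [h1, iota_natCast h]
  unfold iota
  push_cast; ring

lemma iota_comp {k1 k2 m m1 m2 : ℕ} (h1 : k1 * m1 = m) (b : ZMod m2) :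
    (iota k1 (iota k2 b : ZMod m1) : ZMod m) = iota (k1 * k2) b := by
  have : (iota k2 b : ZMod m1) = ((k2 * b.val : ℕ) : ZMod m1) := rfl
  rw [this, iota_natCast h1]
  unfold iota
  congr 1
  ring

lemma OddDist.comp_iota {k m0 m : ℕ} [NeZero m0] (h : k * m0 = m) {Q : Type*} [AddCommGroup Q]
    {c : ZMod m → Q} (hc : OddDist c) : OddDist (fun b : ZMod m0 => c (iota k b)) where
  neg := fun a => by rw [iota_neg h, hc.neg]
  half := fun a ha => by
    apply hc.half
    rw [← iota_add h, ha, iota_zero]
  dist := fun p d hp hpd a => by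
    have h1 := hc.dist p (k * d) hp (by rw [← h, ← hpd]; ring) (iota k a)
    rw [iota_natMul h, ← h1]
    refine sum_congr rfl fun i _ => ?_
    congr 1
    rw [iota_add h]
    congr 1
    have : (i : ZMod m0) * (d : ZMod m0) = ((i * d : ℕ) : ZMod m0) := by push_cast; rfl
    rw [this, iota_natCast h]
    push_cast; ring

/-- `m` reduces to `m0` by multiplication by `k`. -/
def Red (m m0 k : ℕ) [NeZero m] [NeZero m0] : Prop :=
  ∀ (Q : Type) [AddCommGroup Q] (c : ZMod m → Q), OddDist c → ∀ x : ZMod m → ℤ, Rel x →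
    ∃ x0 : ZMod m0 → ℤ, Rel x0 ∧ ∑ a, x a • c a = ∑ b : ZMod m0, x0 b • c (iota k b)

lemma Red.trans {m m1 m2 k1 k2 : ℕ} [NeZero m] [NeZero m1] [NeZero m2] (h1 : k1 * m1 = m)
    (r1 : Red m m1 k1) (r2 : Red m1 m2 k2) : Red m m2 (k1 * k2) := by
  intro Q _ c hc x hx
  obtain ⟨x1, hx1, he1⟩ := r1 Q c hc x hx
  obtain ⟨x2, hx2, he2⟩ := r2 Q (fun b => c (iota k1 b)) (hc.comp_iota h1) x1 hx1
  refine ⟨x2, hx2, ?_⟩
  rw [he1, he2]
  refine sum_congr rfl fun b _ => ?_
  rw [iota_comp h1]

lemma Red.refl (m : ℕ) [NeZero m] : Red m m 1 := by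
  intro Q _ c hc x hx
  refine ⟨x, hx, sum_congr rfl fun b _ => ?_⟩
  congr 2
  unfold iota
  rw [one_mul, ZMod.natCast_zmod_val]

lemma InB_mod {p m n : ℕ} (_hm : m ≠ 0) (_hp : p.Prime) (hpm : p ∣ m) (h : InB p m n) :
    InB p m (n % m) := by
  obtain ⟨h1, h2, h3, h4⟩ := h
  have hd : ∀ q, q ^ (m.factorization q) ∣ m := fun q => Nat.ordProj_dvd m q
  refine ⟨?_, ?_, ?_, ?_⟩
  · intro h; exact h1 ((Nat.dvd_mod_iff hpm).mp h)
  · unfold PP at h2 ⊢
    rwa [Nat.mod_mod_of_dvd _ (dvd_trans (pow_dvd_pow p (Nat.sub_le _ _)) (hd p))]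
  · unfold PT at h3 ⊢
    rwa [Nat.mod_mod_of_dvd _ (hd p)]
  · intro q hq hqp
    have := h4 q hq hqp
    unfold TT at this ⊢
    rwa [Nat.mod_mod_of_dvd _ (hd q)]

lemma saw_iota {k m0 m : ℕ} [NeZero m0] [NeZero m] (h : k * m0 = m) (b : ZMod m0) :
    saw (iota k b : ZMod m) = k * saw b := by
  have hk : 0 < k := Nat.pos_of_ne_zero (by rintro rfl; simp at h; exact NeZero.ne m h.symm)
  have hlt : k * b.val < m := by
    rw [← h]; exact Nat.mul_lt_mul_of_pos_left (ZMod.val_lt b) hk
  unfold iota
  rw [saw_natCast hlt]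
  unfold saw
  by_cases hb : b = 0
  · subst hb; simp
  · have hv : b.val ≠ 0 := fun h' => hb ((ZMod.val_eq_zero b).mp h')
    rw [if_neg hb, if_neg (by positivity)]
    rw [← h]
    push_cast; ring

theorem red_step {m p d : ℕ} [NeZero m] [NeZero d] (hp : p.Prime) (hpd : p * d = m)
    (hpd' : p ∣ d) (hbig : 3 ≤ p ^ (m.factorization p - 1)) : Red m d p := by
  classical
  intro Q _ c hc x hx
  have hm : m ≠ 0 := NeZero.ne m
  have hd0 : d ≠ 0 := NeZero.ne d
  have hp2 : p * p ∣ m := by rw [← hpd]; exact Nat.mul_dvd_mul_left p hpd'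
  have hpm : p ∣ m := Dvd.intro d hpd
  have hmp : m / p = d := by rw [← hpd, Nat.mul_div_cancel_left _ hp.pos]
  have hd3 : 3 ≤ d := by
    obtain ⟨e, u, he, hmu, hpu, hmp'⟩ := decomp hm hp hpm
    rw [he, Nat.add_sub_cancel] at hbig
    rw [← hmp, hmp']
    have hu : 0 < u := Nat.pos_of_ne_zero (by rintro rfl; simp at hpu)
    nlinarith
  -- sets
  let B : Finset (ZMod m) := univ.filter (fun a => InB p m a.val)
  -- the extended target
  let c' : ZMod m → Q × ((ZMod m)ˣ → ℤ) := fun a => (c a, fun t => saw ((t : ZMod m) * a))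
  let T : AddSubgroup (ZMod m → ℤ) :=
    { carrier := {y | ∀ a, y a ≠ 0 → (InB p m a.val ∨ p ∣ a.val)}
      add_mem' := by
        intro y z hy hz a ha
        by_cases h1 : y a = 0
        · by_cases h2 : z a = 0
          · exact absurd (by simp [h1, h2]) ha
          · exact hz a h2
        · exact hy a h1
      zero_mem' := by intro a ha; exact absurd rfl ha
      neg_mem' := by
        intro y hy a ha
        apply hy a
        simpa using ha }
  let Φ : (ZMod m → ℤ) →+ Q × ((ZMod m)ˣ → ℤ) :=
    { toFun := fun y => ∑ a, y a • c' a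
      map_zero' := by simp
      map_add' := by
        intro y z
        simp only [Pi.add_apply, add_smul, sum_add_distrib] }
  let S := T.map Φ
  have hsingle : ∀ a : ZMod m, (InB p m a.val ∨ p ∣ a.val) → c' a ∈ S := by
    intro a ha
    refine ⟨Pi.single a 1, ?_, ?_⟩
    · intro b hb
      by_cases hba : b = a
      · rw [hba]; exact ha
      · rw [Pi.single_eq_of_ne hba] at hb; exact absurd rfl hb
    · change ∑ b, (Pi.single a (1 : ℤ) : ZMod m → ℤ) b • c' b = c' a
      rw [Finset.sum_eq_single a]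
      · simp
      · intro b _ hb; rw [Pi.single_eq_of_ne hb, zero_smul]
      · intro h; exact absurd (mem_univ a) h
  have hOldmem : ∀ a : ZMod m, p ∣ a.val → c' a ∈ S := fun a ha => hsingle a (Or.inr ha)
  have hvalcast : ∀ n : ℕ, ((n : ZMod m)).val = n % m := fun n => ZMod.val_natCast m n
  have hgen : ∀ n : ℕ, ¬ p ∣ n → c' (n : ZMod m) ∈ S := by
    apply gen hm hp hp2 hbig (fun n => c' (n : ZMod m))
    · intro a b hab
      have hab' : ((a : ℕ) : ZMod m) + (b : ZMod m) = 0 := by
        have := (ZMod.natCast_eq_zero_iff (a + b) m).mpr hab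
        simpa using this
      have hb : (b : ZMod m) = - (a : ZMod m) := (neg_eq_of_add_eq_zero_right hab').symm
      simp only [c', hb]
      refine Prod.ext ?_ ?_
      · simp [hc.neg]
      · funext t
        simp only [Prod.snd_neg, Pi.neg_apply, mul_neg, saw_neg]
    · intro q hq hqm a
      have hqd : q * (m / q) = m := Nat.mul_div_cancel' hqm
      refine Prod.ext ?_ ?_
      · rw [Prod.fst_sum]
        simp only [c']
        have := hc.dist q (m / q) hq hqd (a : ZMod m)
        rw [Nat.cast_mul, ← this]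
        refine sum_congr rfl fun i _ => ?_
        push_cast; rfl
      · rw [Prod.snd_sum]
        funext t
        simp only [c', Finset.sum_apply]
        have := saw_dist_unit hqd t (a : ZMod m)
        rw [Nat.cast_mul, ← this]
        refine sum_congr rfl fun i _ => ?_
        push_cast; rfl
    · intro n hn
      apply hsingle
      left
      rw [hvalcast]
      exact InB_mod hm hp hpm hn
    · intro n
      apply hOldmem
      rw [hvalcast]
      exact (Nat.dvd_mod_iff hpm).mpr (dvd_mul_right p n)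
  have hall : ∀ a : ZMod m, c' a ∈ S := by
    intro a
    by_cases h : p ∣ a.val
    · exact hOldmem a h
    · have := hgen a.val h
      rwa [ZMod.natCast_zmod_val] at this
  have hxS : Φ x ∈ S := by
    change ∑ a, x a • c' a ∈ S
    exact S.sum_mem fun a _ => S.zsmul_mem (hall a) _
  obtain ⟨y, hyT, hyx⟩ := hxS
  have hyx1 : ∑ a, y a • c a = ∑ a, x a • c a := by
    have := congrArg Prod.fst hyx
    change (∑ a, y a • c' a).1 = (∑ a, x a • c' a).1 at this
    rw [Prod.fst_sum, Prod.fst_sum] at this
    simpa [c'] using this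
  have hyRel : Rel y := by
    intro t
    have := congrArg (fun w => (Prod.snd w) t) hyx
    change (∑ a, y a • c' a).2 t = (∑ a, x a • c' a).2 t at this
    rw [Prod.snd_sum, Prod.snd_sum, Finset.sum_apply, Finset.sum_apply] at this
    simp only [c', Prod.smul_snd, Pi.smul_apply, smul_eq_mul] at this
    rw [this]
    exact hx t
  -- characters in XX kill the multiples of p
  have hdd : ∀ a : ZMod m, p ∣ a.val → (d : ZMod m) * a = 0 := by
    intro a ⟨k, hk⟩
    have : a = ((p * k : ℕ) : ZMod m) := by rw [← hk, ZMod.natCast_zmod_val]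
    rw [this]
    have h2 : ((p * d * k : ℕ) : ZMod m) = 0 := by
      rw [ZMod.natCast_eq_zero_iff, hpd]; exact dvd_mul_right m k
    push_cast at h2 ⊢
    linear_combination h2
  have hu : IsUnit (1 + (d : ZMod m)) := by
    have hdsq : (d : ZMod m) * (d : ZMod m) = 0 := by
      obtain ⟨k, hk⟩ := hpd'
      have : ((d * d : ℕ) : ZMod m) = 0 := by
        rw [ZMod.natCast_eq_zero_iff, ← hpd]
        exact Nat.mul_dvd_mul ⟨k, hk⟩ dvd_rfl
      simpa using this
    exact IsUnit.of_mul_eq_one (1 - (d : ZMod m)) (by linear_combination - hdsq)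
  have hkill : ∀ χ ∈ XX m d, ∀ a : ZMod m, p ∣ a.val → SS χ a = 0 := by
    intro χ hχ a ha
    unfold XX at hχ
    simp only [mem_filter, mem_univ, true_and] at hχ
    obtain ⟨u, hu'⟩ := hu
    have h1 := SS_unit χ u a
    have h2 : (u : ZMod m) * a = a := by
      rw [hu', add_mul, one_mul, hdd a ha, add_zero]
    rw [h2] at h1
    have h3 : χ (u : ZMod m) ≠ 1 := by rw [hu']; exact hχ.2
    have h4 : (1 - (χ (u : ZMod m))⁻¹) * SS χ a = 0 := by linear_combination h1
    rcases mul_eq_zero.mp h4 with h5 | h5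
    · exfalso
      apply h3
      have : (χ (u : ZMod m))⁻¹ = 1 := (sub_eq_zero.mp h5).symm
      exact inv_eq_one.mp this
    · exact h5
  -- vanishing on B
  have hB0 : ∀ b ∈ B, (fun a : ZMod m => (y a : ℂ)) b = 0 := by
    apply indep (XX m d) _ B _ _ (fun a : ZMod m => (y a : ℂ)) _
    · intro χ hχ
      unfold XX at hχ
      simp only [mem_filter, mem_univ, true_and] at hχ
      exact hχ.1
    · -- cardinality
      have h1 := card_XX hp hpd hpd' hd3
      have h2 := card_InB hm hp hp2 (B.image ZMod.val) (by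
        intro n hn
        obtain ⟨a, ha, rfl⟩ := mem_image.mp hn
        simp only [B, mem_filter, mem_univ, true_and] at ha
        exact ⟨ZMod.val_lt a, ha⟩)
      rw [Finset.card_image_of_injective _ (ZMod.val_injective m)] at h2
      rw [← h1] at h2
      exact Nat.le_of_mul_le_mul_left h2 (by have := hp.pos; positivity)
    · -- generation
      intro α hα a
      have hF : ∀ n : ℕ, ¬ p ∣ n → ∑ χ ∈ XX m d, α χ * SS χ ((n : ℕ) : ZMod m) ∈ (⊥ : AddSubgroup ℂ) := by
        apply gen hm hp hp2 hbig (fun n => ∑ χ ∈ XX m d, α χ * SS χ ((n : ℕ) : ZMod m))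
        · intro a b hab
          have hab' : ((a : ℕ) : ZMod m) + (b : ZMod m) = 0 := by
            have := (ZMod.natCast_eq_zero_iff (a + b) m).mpr hab
            simpa using this
          have hb : (b : ZMod m) = - (a : ZMod m) := (neg_eq_of_add_eq_zero_right hab').symm
          simp only [hb, SS_neg, mul_neg, sum_neg_distrib]
        · intro q hq hqm a
          have hqd : q * (m / q) = m := Nat.mul_div_cancel' hqm
          rw [sum_comm]
          refine sum_congr rfl fun χ _ => ?_
          rw [← mul_sum]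
          congr 1
          rw [Nat.cast_mul, ← SS_dist χ hqd]
          refine sum_congr rfl fun i _ => ?_
          push_cast; rfl
        · intro n hn
          rw [AddSubgroup.mem_bot]
          apply hα
          simp only [B, mem_filter, mem_univ, true_and]
          rw [hvalcast]
          exact InB_mod hm hp hpm hn
        · intro n
          rw [AddSubgroup.mem_bot]
          apply sum_eq_zero
          intro χ hχ
          rw [hkill χ hχ _ (by rw [hvalcast]; exact (Nat.dvd_mod_iff hpm).mpr (dvd_mul_right p n)),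
            mul_zero]
      by_cases h : p ∣ a.val
      · apply sum_eq_zero
        intro χ hχ
        rw [hkill χ hχ a h, mul_zero]
      · have := hF a.val h
        rw [AddSubgroup.mem_bot, ZMod.natCast_zmod_val] at this
        exact this
    · intro χ hχ
      have h1 : ∑ b ∈ B, (y b : ℂ) * SS χ b = ∑ a, (y a : ℂ) * SS χ a := by
        apply sum_subset (subset_univ B)
        intro a _ ha
        by_cases hya : y a = 0
        · rw [hya]; simp
        · rcases hyT a hya with h | h
          · exfalso; apply ha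
            simp only [B, mem_filter, mem_univ, true_and]; exact h
          · rw [hkill χ hχ a h, mul_zero]
      rw [h1]
      unfold SS
      have h2 : ∑ a, (y a : ℂ) * ∑ t : (ZMod m)ˣ, χ t * (saw ((t : ZMod m) * a) : ℂ) =
          ∑ t : (ZMod m)ˣ, χ t * ((∑ a, y a * saw ((t : ZMod m) * a) : ℤ) : ℂ) := by
        simp only [mul_sum, Int.cast_sum, Int.cast_mul]
        rw [sum_comm]
        refine sum_congr rfl fun t _ => sum_congr rfl fun a _ => ?_
        ring
      rw [h2]
      apply sum_eq_zero
      intro t _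
      rw [hyRel t]; simp
  -- y is supported on multiples of p
  have hysupp : ∀ a : ZMod m, y a ≠ 0 → p ∣ a.val := by
    intro a ha
    rcases hyT a ha with h | h
    · exfalso
      have := hB0 a (by simp only [B, mem_filter, mem_univ, true_and]; exact h)
      simp only [Int.cast_eq_zero] at this
      exact ha this
    · exact h
  -- transfer to level d
  have hinj : Function.Injective (fun b : ZMod d => (iota p b : ZMod m)) := by
    intro b b' h
    simp only [iota] at h
    rw [ZMod.natCast_eq_natCast_iff', Nat.mod_eq_of_lt, Nat.mod_eq_of_lt] at h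
    · exact ZMod.val_injective d (Nat.eq_of_mul_eq_mul_left hp.pos h)
    · rw [← hpd]; exact Nat.mul_lt_mul_of_pos_left (ZMod.val_lt b') hp.pos
    · rw [← hpd]; exact Nat.mul_lt_mul_of_pos_left (ZMod.val_lt b) hp.pos
  have hsurj : ∀ a : ZMod m, p ∣ a.val → ∃ b : ZMod d, (iota p b : ZMod m) = a := by
    intro a ⟨k, hk⟩
    refine ⟨(k : ZMod d), ?_⟩
    rw [iota_natCast hpd, ← hk, ZMod.natCast_zmod_val]
  have htrans : ∀ {R : Type} [AddCommGroup R] (g : ZMod m → R),
      ∑ a, y a • g a = ∑ b : ZMod d, y (iota p b) • g (iota p b) := by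
    intro R _ g
    rw [← Finset.sum_image (s := univ) (g := fun b : ZMod d => (iota p b : ZMod m))
      (f := fun a => y a • g a) (fun b _ b' _ h => hinj h)]
    symm
    apply sum_subset (subset_univ _)
    intro a _ ha
    by_cases hya : y a = 0
    · rw [hya, zero_smul]
    · exfalso
      apply ha
      obtain ⟨b, hb⟩ := hsurj a (hysupp a hya)
      exact mem_image.mpr ⟨b, mem_univ b, hb⟩
  refine ⟨fun b => y (iota p b), ?_, ?_⟩
  · intro t'
    obtain ⟨t, ht⟩ := ZMod.unitsMap_surjective (Dvd.intro_left p hpd : d ∣ m) t'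
    have h1 := hyRel t
    have h2 := htrans (fun a => saw ((t : ZMod m) * a))
    simp only [smul_eq_mul] at h2
    rw [h1] at h2
    have h3 : ∀ b : ZMod d, saw ((t : ZMod m) * iota p b) = p * saw ((t' : ZMod d) * b) := by
      intro b
      rw [← saw_iota hpd]
      congr 1
      have ht' : (t' : ZMod d) = (((t : ZMod m).val : ℕ) : ZMod d) := by
        rw [← ht, ZMod.unitsMap_val]
        rw [ZMod.natCast_val]
      rw [ht', iota_natMul hpd, ZMod.natCast_zmod_val]
    have h4 : (p : ℤ) * ∑ b : ZMod d, y (iota p b) * saw ((t' : ZMod d) * b) = 0 := by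
      rw [mul_sum, h2]
      refine sum_congr rfl fun b _ => ?_
      rw [h3]; ring
    have hp0 : (p : ℤ) ≠ 0 := by exact_mod_cast hp.ne_zero
    exact (mul_eq_zero.mp h4).resolve_left hp0
  · rw [← hyx1]
    exact htrans c

end Pool.Agent.H916R2
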