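import Pool.Agent.H916R2.Relations

/-!
Levels at which all relations follow from the Hodge characters with four entries.
-/

namespace Pool.Agent.H916R2

open Finset

set_option linter.unusedSectionVars false

variable {m : ℕ} [NeZero m]

/-- `c` kills the Hodge characters with four entries. -/
def Four {Q : Type*} [AddCommGroup Q] (c : ZMod m → Q) : Prop :=
  ∀ s : Multiset (ZMod m), IsHodge m s → Multiset.card s = 4 → (s.map c).sum = 0

/-- All relations follow from distribution relations and Hodge characters with four entries. -/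
def Full (m : ℕ) [NeZero m] : Prop :=
  ∀ (Q : Type) [AddCommGroup Q] (c : ZMod m → Q), OddDist c → Four c →
    ∀ x : ZMod m → ℤ, Rel x → ∑ a, x a • c a = 0

open scoped Classical in
/-- The odd characters. -/
noncomputable def XO (m : ℕ) : Finset (DirichletCharacter ℂ m) :=
  Finset.univ.filter (fun χ => χ.Odd)

lemma card_XO (hm3 : 3 ≤ m) : 2 * (XO m).card = Nat.totient m := by
  classical
  have hpt : ∀ χ : DirichletCharacter ℂ m, (1 - χ (-1)) = if χ ∈ XO m then 2 else 0 := by
    intro χ
    unfold XO
    simp only [mem_filter, mem_univ, true_and]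
    rcases χ.even_or_odd with he | ho
    · have h1 : χ (-1) = 1 := he
      rw [if_neg he.not_odd, h1]; ring
    · have h1 : χ (-1) = -1 := ho
      rw [if_pos ho, h1]; ring
  have hA : ∑ χ : DirichletCharacter ℂ m, (1 - χ (-1)) = 2 * ((XO m).card : ℂ) := by
    rw [sum_congr rfl fun χ _ => hpt χ, ← Finset.sum_filter]
    simp only [Finset.filter_mem_eq_inter, Finset.univ_inter, sum_const, nsmul_eq_mul]
    ring
  have hB : ∑ χ : DirichletCharacter ℂ m, (1 - χ (-1)) = (Nat.totient m : ℂ) := by
    have hexp : ∀ χ : DirichletCharacter ℂ m, (1 - χ (-1)) = χ 1 - χ (-1) := by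
      intro χ; rw [map_one]
    rw [sum_congr rfl fun χ _ => hexp χ, sum_sub_distrib, DirichletCharacter.sum_characters_eq,
      DirichletCharacter.sum_characters_eq, if_pos rfl, if_neg, sub_zero]
    intro h
    have h2 : ((2 : ℕ) : ZMod m) = 0 := by push_cast; linear_combination -h
    rw [ZMod.natCast_eq_zero_iff] at h2
    have := Nat.le_of_dvd (by norm_num) h2
    omega
  rw [hA] at hB
  have : ((2 * (XO m).card : ℕ) : ℂ) = ((Nat.totient m : ℕ) : ℂ) := by push_cast; exact hB
  exact_mod_cast this

lemma SS_sum_hodge (χ : DirichletCharacter ℂ m) {s : Multiset (ZMod m)} (hs : IsHodge m s) :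
    (s.map (SS χ)).sum = 0 := by
  have h1 : (s.map (SS χ)).sum = ∑ t : (ZMod m)ˣ, χ t *
      (((s.map fun a => saw ((t : ZMod m) * a)).sum : ℤ) : ℂ) := by
    have : ∀ s : Multiset (ZMod m), (s.map (SS χ)).sum = ∑ t : (ZMod m)ˣ, χ t *
      (((s.map fun a => saw ((t : ZMod m) * a)).sum : ℤ) : ℂ) := by
      intro s
      induction s using Multiset.induction_on with
      | empty => simp
      | cons a s ih =>
        rw [Multiset.map_cons, Multiset.sum_cons, ih]
        unfold SS
        rw [← sum_add_distrib]
        refine sum_congr rfl fun t _ => ?_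
        rw [Multiset.map_cons, Multiset.sum_cons]
        push_cast; ring
    exact this s
  rw [h1]
  apply sum_eq_zero
  intro t _
  rw [hs.saw_sum t]; simp

theorem full_of_gen (hm3 : 3 ≤ m) (B : Finset (ZMod m)) (hcard : 2 * B.card ≤ Nat.totient m)
    (hgen : ∀ (Q : Type) [AddCommGroup Q] (c : ZMod m → Q), OddDist c → Four c →
      ∀ S : AddSubgroup Q, (∀ b ∈ B, c b ∈ S) → ∀ a, c a ∈ S) : Full m := by
  classical
  intro Q _ c hc hc4 x hx
  let c' : ZMod m → Q × ((ZMod m)ˣ → ℤ) := fun a => (c a, fun t => saw ((t : ZMod m) * a))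
  have hc' : OddDist c' := by
    constructor
    · intro a
      refine Prod.ext ?_ ?_
      · simp [c', hc.neg]
      · funext t
        simp only [c', Prod.snd_neg, Pi.neg_apply, mul_neg, saw_neg]
    · intro a ha
      refine Prod.ext ?_ ?_
      · exact hc.half a ha
      · funext t
        simp only [c', Prod.snd_zero, Pi.zero_apply]
        apply saw_half
        rw [← mul_add, ha, mul_zero]
    · intro p d hp hpd a
      refine Prod.ext ?_ ?_
      · rw [Prod.fst_sum]
        exact hc.dist p d hp hpd a
      · rw [Prod.snd_sum]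
        funext t
        simp only [c', Finset.sum_apply]
        exact saw_dist_unit hpd t a
  have hc4' : Four c' := by
    intro s hs hcs
    have hfst : ∀ s : Multiset (ZMod m), (s.map c').sum =
        ((s.map c).sum, fun t : (ZMod m)ˣ => (s.map fun a => saw ((t : ZMod m) * a)).sum) := by
      intro s
      induction s using Multiset.induction_on with
      | empty =>
        refine Prod.ext ?_ ?_
        · simp
        · funext t; simp
      | cons a s ih =>
        rw [Multiset.map_cons, Multiset.sum_cons, ih]
        refine Prod.ext ?_ ?_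
        · simp [c']
        · funext t; simp [c']
    rw [hfst, hc4 s hs hcs]
    refine Prod.ext rfl ?_
    funext t
    exact hs.saw_sum t
  let T : AddSubgroup (ZMod m → ℤ) :=
    { carrier := {y | ∀ a, y a ≠ 0 → a ∈ B}
      add_mem' := by
        intro y z hy hz a ha
        by_cases h1 : y a = 0
        · by_cases h2 : z a = 0
          · exact absurd (by simp [h1, h2]) ha
          · exact hz a h2
        · exact hy a h1
      zero_mem' := by intro a ha; exact absurd rfl ha
      neg_mem' := by
        intro y hy a ha
        apply hy a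
        simpa using ha }
  let Φ : (ZMod m → ℤ) →+ Q × ((ZMod m)ˣ → ℤ) :=
    { toFun := fun y => ∑ a, y a • c' a
      map_zero' := by simp
      map_add' := by
        intro y z
        simp only [Pi.add_apply, add_smul, sum_add_distrib] }
  let S := T.map Φ
  have hsingle : ∀ a : ZMod m, a ∈ B → c' a ∈ S := by
    intro a ha
    refine ⟨Pi.single a 1, ?_, ?_⟩
    · intro b hb
      by_cases hba : b = a
      · rw [hba]; exact ha
      · rw [Pi.single_eq_of_ne hba] at hb; exact absurd rfl hb
    · change ∑ b, (Pi.single a (1 : ℤ) : ZMod m → ℤ) b • c' b = c' a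
      rw [Finset.sum_eq_single a]
      · simp
      · intro b _ hb; rw [Pi.single_eq_of_ne hb, zero_smul]
      · intro h; exact absurd (mem_univ a) h
  have hall : ∀ a : ZMod m, c' a ∈ S := hgen _ c' hc' hc4' S hsingle
  have hxS : Φ x ∈ S := by
    change ∑ a, x a • c' a ∈ S
    exact S.sum_mem fun a _ => S.zsmul_mem (hall a) _
  obtain ⟨y, hyT, hyx⟩ := hxS
  have hyx1 : ∑ a, y a • c a = ∑ a, x a • c a := by
    have := congrArg Prod.fst hyx
    change (∑ a, y a • c' a).1 = (∑ a, x a • c' a).1 at this
    rw [Prod.fst_sum, Prod.fst_sum] at this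
    simpa [c'] using this
  have hyRel : Rel y := by
    intro t
    have := congrArg (fun w => (Prod.snd w) t) hyx
    change (∑ a, y a • c' a).2 t = (∑ a, x a • c' a).2 t at this
    rw [Prod.snd_sum, Prod.snd_sum, Finset.sum_apply, Finset.sum_apply] at this
    simp only [c', Prod.smul_snd, Pi.smul_apply, smul_eq_mul] at this
    rw [this]
    exact hx t
  have hB0 : ∀ b ∈ B, (fun a : ZMod m => (y a : ℂ)) b = 0 := by
    apply indep (XO m) _ B _ _ (fun a : ZMod m => (y a : ℂ)) _
    · intro χ hχ
      unfold XO at hχ
      simp only [mem_filter, mem_univ, true_and] at hχ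
      exact hχ
    · have := card_XO hm3
      omega
    · intro α hα a
      have hF : OddDist (fun a : ZMod m => ∑ χ ∈ XO m, α χ * SS χ a) := by
        constructor
        · intro a
          simp only [SS_neg, mul_neg, sum_neg_distrib]
        · intro a ha
          apply sum_eq_zero
          intro χ _
          have h1 : -a = a := neg_eq_of_add_eq_zero_right ha
          have h2 := SS_neg χ a
          rw [h1] at h2
          have h3 : SS χ a = 0 := by
            have : 2 * SS χ a = 0 := by linear_combination h2
            simpa using this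
          rw [h3, mul_zero]
        · intro p d hp hpd a
          rw [sum_comm]
          refine sum_congr rfl fun χ _ => ?_
          rw [← mul_sum]
          congr 1
          exact SS_dist χ hpd a
      have hF4 : Four (fun a : ZMod m => ∑ χ ∈ XO m, α χ * SS χ a) := by
        intro s hs _
        rw [Multiset.sum_map_sum]
        apply sum_eq_zero
        intro χ _
        rw [Multiset.sum_map_mul_left]
        have := SS_sum_hodge χ hs
        rw [this, mul_zero]
      have := hgen ℂ _ hF hF4 ⊥ (fun b hb => by
        rw [AddSubgroup.mem_bot]; exact hα b hb) a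
      rwa [AddSubgroup.mem_bot] at this
    · intro χ hχ
      have h1 : ∑ b ∈ B, (y b : ℂ) * SS χ b = ∑ a, (y a : ℂ) * SS χ a := by
        apply sum_subset (subset_univ B)
        intro a _ ha
        by_cases hya : y a = 0
        · rw [hya]; simp
        · exact absurd (hyT a hya) ha
      rw [h1]
      unfold SS
      have h2 : ∑ a, (y a : ℂ) * ∑ t : (ZMod m)ˣ, χ t * (saw ((t : ZMod m) * a) : ℂ) =
          ∑ t : (ZMod m)ˣ, χ t * ((∑ a, y a * saw ((t : ZMod m) * a) : ℤ) : ℂ) := by
        simp only [mul_sum, Int.cast_sum, Int.cast_mul]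
        rw [sum_comm]
        refine sum_congr rfl fun t _ => sum_congr rfl fun a _ => ?_
        ring
      rw [h2]
      apply sum_eq_zero
      intro t _
      rw [hyRel t]; simp
  rw [← hyx1]
  apply sum_eq_zero
  intro a _
  by_cases hya : y a = 0
  · rw [hya, zero_smul]
  · have := hB0 a (hyT a hya)
    simp only [Int.cast_eq_zero] at this
    exact absurd this hya

lemma full_of_zero (h : ∀ (Q : Type) [AddCommGroup Q] (c : ZMod m → Q), OddDist c → Four c →
    ∀ a, c a = 0) : Full m := by
  intro Q _ c hc hc4 x _
  apply sum_eq_zero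
  intro a _
  rw [h Q c hc hc4 a, smul_zero]

theorem generated_of_full {m0 k : ℕ} [NeZero m0] (hk : k * m0 = m) (hred : Red m m0 k)
    (hfull : Full m0) {s : Multiset (ZMod m)} (hs : IsHodge m s) (hne : s ≠ 0) :
    Generated m (SurfaceCharacter m) s := by
  have hb : ∀ s, SurfaceCharacter m s → (0 : ZMod m) ∉ s ∧ Even (Multiset.card s) :=
    fun s h => ⟨h.1.1, h.1.2.1⟩
  have hbn : ∀ s, SurfaceCharacter m s → SurfaceCharacter m (s.map Neg.neg) := by
    rintro s ⟨h1, h2⟩
    exact ⟨h1.neg, by rw [Multiset.card_map]; exact h2⟩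
  obtain ⟨x0, hx0, he⟩ := hred _ (cQ m (SurfaceCharacter m)) cQ_oddDist _ hs.rel
  have h4 : Four (fun b : ZMod m0 => cQ m (SurfaceCharacter m) (iota k b)) := by
    intro s0 hs0 hc0
    have h2 := cQ_sum_eq_zero (Generated.ofBase (m := m) (base := SurfaceCharacter m)
      (s0.map (iota k : ZMod m0 → ZMod m)) ⟨hs0.iota hk, by rw [Multiset.card_map]; exact hc0⟩)
    rw [Multiset.map_map] at h2
    exact h2
  rw [hfull _ _ (cQ_oddDist.comp_iota hk) h4 x0 hx0, sum_count] at he
  rw [cQ_sum, QuotientAddGroup.eq_zero_iff] at he
  exact generated_of_mem_LL hb hbn hs.1 hs.2.1 hne he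

end Pool.Agent.H916R2
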