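import Mathlib

/-!
Elimination (Kubert type generation) for odd distributions, in the part that is new at `p`.
-/

namespace Pool.Agent.H916R2

open Finset

/-- the local condition at a prime `q ≠ p` -/
def TT (q m x : ℕ) : Prop :=
  x % q ^ (m.factorization q) = 0 ∨ q ^ (m.factorization q - 1) < x % q ^ (m.factorization q)

instance (q m x : ℕ) : Decidable (TT q m x) := by unfold TT; infer_instance

/-- the sign condition at `p` -/
def PP (p m x : ℕ) : Prop :=
  2 * (x % p ^ (m.factorization p - 1)) < p ^ (m.factorization p - 1)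

instance (p m x : ℕ) : Decidable (PP p m x) := by unfold PP; infer_instance

/-- the top digit condition at `p` -/
def PT (p m x : ℕ) : Prop :=
  p ^ (m.factorization p - 1) ≤ x % p ^ (m.factorization p)

/-- the generating set -/
def InB (p m x : ℕ) : Prop :=
  ¬ p ∣ x ∧ PP p m x ∧ PT p m x ∧ ∀ q ∈ m.primeFactors, q ≠ p → TT q m x

/-- number of primes at which the local condition fails -/
def bad (p m x : ℕ) : ℕ := (m.primeFactors.filter (fun q => q ≠ p ∧ ¬ TT q m x)).card

section facts

variable {m : ℕ} (hm : m ≠ 0)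

include hm

lemma decomp {q : ℕ} (hq : q.Prime) (hqm : q ∣ m) :
    ∃ f u, m.factorization q = f + 1 ∧ m = q ^ (f + 1) * u ∧ ¬ q ∣ u ∧ m / q = q ^ f * u := by
  have hf : 0 < m.factorization q := hq.factorization_pos_of_dvd hm hqm
  obtain ⟨f, hf'⟩ : ∃ f, m.factorization q = f + 1 := ⟨m.factorization q - 1, by omega⟩
  refine ⟨f, m / q ^ (f + 1), hf', ?_, ?_, ?_⟩
  · rw [← hf']; exact (Nat.ordProj_mul_ordCompl_eq_self m q).symm
  · rw [← hf']; exact Nat.not_dvd_ordCompl hq hm
  · have h1 : m = q ^ (f + 1) * (m / q ^ (f + 1)) := by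
      rw [← hf']; exact (Nat.ordProj_mul_ordCompl_eq_self m q).symm
    calc m / q = (q ^ (f + 1) * (m / q ^ (f + 1))) / q := by rw [← h1]
      _ = (q * (q ^ f * (m / q ^ (f + 1)))) / q := by ring_nf
      _ = q ^ f * (m / q ^ (f + 1)) := Nat.mul_div_cancel_left _ hq.pos

lemma TT_shift {q : ℕ} (hq : q.Prime) (hqm : q ∣ m) {x i : ℕ} (hx : ¬ TT q m x)
    (hi0 : 0 < i) (hiq : i < q) : TT q m (x + i * (m / q)) := by
  obtain ⟨f, u, hf, hmu, hqu, hmq⟩ := decomp hm hq hqm
  unfold TT at hx ⊢
  rw [hf] at hx ⊢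
  simp only [Nat.add_sub_cancel] at hx ⊢
  push Not at hx
  obtain ⟨hx0, hx1⟩ := hx
  rw [hmq]
  have hqf : 0 < q ^ f := pow_pos hq.pos f
  set r := x % q ^ (f + 1) with hr
  set k := (i * u) % q with hk
  have hk0 : k ≠ 0 := by
    intro h
    have : q ∣ i * u := Nat.dvd_of_mod_eq_zero h
    rcases (Nat.Prime.dvd_mul hq).mp this with h1 | h1
    · exact absurd (Nat.le_of_dvd hi0 h1) (by omega)
    · exact hqu h1
  have hkq : k < q := Nat.mod_lt _ hq.pos
  have hval : (x + i * (q ^ f * u)) % q ^ (f + 1) = (r + k * q ^ f) % q ^ (f + 1) := by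
    have h1 : (i * (q ^ f * u)) % q ^ (f + 1) = (k * q ^ f) % q ^ (f + 1) := by
      rw [show i * (q ^ f * u) = q ^ f * (i * u) by ring, show k * q ^ f = q ^ f * k by ring,
        pow_succ, Nat.mul_mod_mul_left, Nat.mul_mod_mul_left, hk, Nat.mod_mod]
    rw [hr, Nat.mod_add_mod, Nat.add_mod x, h1, ← Nat.add_mod]
  rw [hval]
  have hr1 : 1 ≤ r := Nat.one_le_iff_ne_zero.mpr hx0
  clear_value r k
  have hqq : q ^ (f + 1) = q * q ^ f := by ring
  rcases lt_or_eq_of_le hx1 with hlt | heq
  · -- r < q^f
    have hlt2 : r + k * q ^ f < q ^ (f + 1) := by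
      rw [hqq]
      have : (k + 1) * q ^ f ≤ q * q ^ f := Nat.mul_le_mul_right _ hkq
      nlinarith
    rw [Nat.mod_eq_of_lt hlt2]
    right
    have : 1 * q ^ f ≤ k * q ^ f := Nat.mul_le_mul_right _ (Nat.one_le_iff_ne_zero.mpr hk0)
    omega
  · -- r = q^f
    rw [heq]
    rcases Nat.lt_or_ge (k + 1) q with h1 | h1
    · right
      have hlt2 : q ^ f + k * q ^ f < q ^ (f + 1) := by
        rw [hqq]
        have : (k + 1) * q ^ f < q * q ^ f := Nat.mul_lt_mul_of_pos_right h1 hqf
        nlinarith
      rw [Nat.mod_eq_of_lt hlt2]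
      have : 1 * q ^ f ≤ k * q ^ f := Nat.mul_le_mul_right _ (Nat.one_le_iff_ne_zero.mpr hk0)
      omega
    · left
      have hkk : k + 1 = q := by omega
      have : q ^ f + k * q ^ f = q ^ (f + 1) := by
        rw [hqq, ← hkk]; ring
      rw [this, Nat.mod_self]

lemma mod_other {q q' : ℕ} (hq : q.Prime) (hqm : q ∣ m) (hq' : q'.Prime) (hne : q' ≠ q) (x i : ℕ) :
    (x + i * (m / q)) % q' ^ (m.factorization q') = x % q' ^ (m.factorization q') := by
  have hdvd : q' ^ (m.factorization q') ∣ m / q := by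
    have h1 : q' ^ (m.factorization q') ∣ q * (m / q) := by
      rw [Nat.mul_div_cancel' hqm]; exact Nat.ordProj_dvd m q'
    exact (Nat.Coprime.pow_left _ ((Nat.coprime_primes hq' hq).mpr hne)).dvd_of_dvd_mul_left h1
  rw [Nat.add_mod, Nat.mod_eq_zero_of_dvd (hdvd.mul_left i)]
  simp

lemma TT_other {q q' : ℕ} (hq : q.Prime) (hqm : q ∣ m) (hq' : q'.Prime) (hne : q' ≠ q) (x i : ℕ) :
    TT q' m (x + i * (m / q)) ↔ TT q' m x := by
  unfold TT
  rw [mod_other hm hq hqm hq' hne]

lemma gcd_dvd_of_not_TT {q : ℕ} (hq : q.Prime) (hqm : q ∣ m) {x : ℕ} (hx : ¬ TT q m x) :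
    Nat.gcd x m ∣ m / q := by
  obtain ⟨f, u, hf, hmu, hqu, hmq⟩ := decomp hm hq hqm
  have hx0 : ¬ q ^ (f + 1) ∣ x := by
    intro h
    apply hx
    left
    rw [hf]
    exact Nat.mod_eq_zero_of_dvd h
  have hg : Nat.gcd x m ∣ q ^ (f + 1) * u := by
    have := Nat.gcd_dvd_right x m
    rw [hmu] at this ⊢
    exact this
  obtain ⟨g1, g2, h1, h2, h12⟩ := (Nat.dvd_mul).mp hg
  obtain ⟨j, hj, rfl⟩ := (Nat.dvd_prime_pow hq).mp h1
  have hjf : j ≤ f := by
    by_contra hcon
    have hjf : j = f + 1 := by omega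
    apply hx0
    calc q ^ (f + 1) ∣ q ^ j := by rw [hjf]
      _ ∣ q ^ j * g2 := Dvd.intro _ rfl
      _ = Nat.gcd x m := h12
      _ ∣ x := Nat.gcd_dvd_left x m
  rw [hmq, ← h12]
  exact Nat.mul_dvd_mul (pow_dvd_pow q hjf) h2

lemma gcd_shift_ge {q : ℕ} (hq : q.Prime) (hqm : q ∣ m) {x : ℕ} (hx : ¬ TT q m x) (i : ℕ) :
    Nat.gcd x m ≤ Nat.gcd (x + i * (m / q)) m := by
  apply Nat.le_of_dvd (Nat.gcd_pos_of_pos_right _ (Nat.pos_of_ne_zero hm))
  apply Nat.dvd_gcd
  · exact dvd_add (Nat.gcd_dvd_left x m) ((gcd_dvd_of_not_TT hm hq hqm hx).mul_left i)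
  · exact Nat.gcd_dvd_right x m

lemma gcd_mul_gt {q : ℕ} (hq : q.Prime) (hqm : q ∣ m) {x : ℕ} (hx : ¬ TT q m x) :
    Nat.gcd x m < Nat.gcd (q * x) m := by
  have h1 : q * Nat.gcd x m ∣ Nat.gcd (q * x) m := by
    apply Nat.dvd_gcd
    · exact Nat.mul_dvd_mul_left q (Nat.gcd_dvd_left x m)
    · have := Nat.mul_dvd_mul_left q (gcd_dvd_of_not_TT hm hq hqm hx)
      rwa [Nat.mul_div_cancel' hqm] at this
  have h2 := Nat.le_of_dvd (Nat.gcd_pos_of_pos_right _ (Nat.pos_of_ne_zero hm)) h1
  have h3 : 0 < Nat.gcd x m := Nat.gcd_pos_of_pos_right _ (Nat.pos_of_ne_zero hm)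
  have := hq.two_le
  nlinarith

end facts

/-- Generation: an odd distribution is determined, on the classes prime to `p`, by its values on
the set `InB` and on the multiples of `p`. -/
theorem gen {Q : Type*} [AddCommGroup Q] {m p : ℕ} (hm : m ≠ 0) (hp : p.Prime)
    (hp2 : p * p ∣ m) (hbig : 3 ≤ p ^ (m.factorization p - 1))
    (C : ℕ → Q) (hneg : ∀ x y, m ∣ x + y → C y = - C x)
    (hdist : ∀ q, q.Prime → q ∣ m → ∀ x, ∑ i ∈ range q, C (x + i * (m / q)) = C (q * x))
    (S : AddSubgroup Q) (hB : ∀ x, InB p m x → C x ∈ S) (hOld : ∀ x, C (p * x) ∈ S) :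
    ∀ x, ¬ p ∣ x → C x ∈ S := by
  have hpm : p ∣ m := dvd_trans (dvd_mul_right p p) hp2
  obtain ⟨e, u, he, hmu, hpu, hmp⟩ := decomp hm hp hpm
  have he1 : 1 ≤ e := by
    by_contra hcon
    have : e = 0 := by omega
    subst this
    rw [he] at hbig
    simp at hbig
  have hpe : p ∣ p ^ e := dvd_pow_self p (by omega)
  rw [he, Nat.add_sub_cancel] at hbig
  have hpdm : p ^ e ∣ m / p := by rw [hmp]; exact Dvd.intro _ rfl
  -- main induction
  suffices H : ∀ A : ℕ, ∀ x, m - Nat.gcd x m = A → ¬ p ∣ x → C x ∈ S by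
    intro x hx; exact H _ x rfl hx
  intro A
  induction A using Nat.strong_induction_on with
  | _ A ihA =>
  -- elements with the sign condition
  have key : ∀ b : ℕ, ∀ x, m - Nat.gcd x m ≤ A → ¬ p ∣ x → PP p m x → bad p m x = b → C x ∈ S := by
    intro b
    induction b using Nat.strong_induction_on with
    | _ b ihb =>
    intro x hxA hpx hPP hbad
    rcases lt_or_eq_of_le hxA with hlt | heq
    · exact ihA _ hlt x rfl hpx
    by_cases hall : ∀ q ∈ m.primeFactors, q ≠ p → TT q m x
    · -- all local conditions hold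
      by_cases hPT : PT p m x
      · exact hB x ⟨hpx, hPP, hPT, hall⟩
      · -- use the relation at p
        have hrel := hdist p hp hpm x
        obtain ⟨k, hk⟩ : ∃ k, p = k + 1 := ⟨p - 1, by have := hp.pos; omega⟩
        have hrel2 : C x = C (p * x) - ∑ i ∈ range k, C (x + (i + 1) * (m / p)) := by
          rw [← hrel]
          conv_rhs => rw [hk]
          rw [sum_range_succ']
          rw [← hk]
          simp
        rw [hrel2]
        apply S.sub_mem (hOld x)
        apply S.sum_mem
        intro i hi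
        have hik : i < k := mem_range.mp hi
        apply hB
        refine ⟨?_, ?_, ?_, ?_⟩
        · intro h
          apply hpx
          exact (Nat.dvd_add_left ((dvd_trans hpe hpdm).mul_left _)).mp h
        · unfold PP at hPP ⊢
          rw [he, Nat.add_sub_cancel] at hPP ⊢
          rw [Nat.add_mod, Nat.mod_eq_zero_of_dvd (hpdm.mul_left _)]
          simpa using hPP
        · unfold PT at hPT ⊢
          rw [he, Nat.add_sub_cancel] at hPT ⊢
          push Not at hPT
          have hk0 : ((i + 1) * u) % p ≠ 0 := by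
            intro h
            have : p ∣ (i + 1) * u := Nat.dvd_of_mod_eq_zero h
            rcases (Nat.Prime.dvd_mul hp).mp this with h1 | h1
            · exact absurd (Nat.le_of_dvd (Nat.succ_pos _) h1) (by omega)
            · exact hpu h1
          have hval : (x + (i + 1) * (m / p)) % p ^ (e + 1) =
              (x % p ^ (e + 1) + (((i + 1) * u) % p) * p ^ e) % p ^ (e + 1) := by
            have h1 : ((i + 1) * (m / p)) % p ^ (e + 1) = ((((i + 1) * u) % p) * p ^ e) % p ^ (e + 1) := by
              rw [hmp, show (i + 1) * (p ^ e * u) = p ^ e * ((i + 1) * u) by ring,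
                show (((i + 1) * u) % p) * p ^ e = p ^ e * (((i + 1) * u) % p) by ring,
                pow_succ, Nat.mul_mod_mul_left, Nat.mul_mod_mul_left, Nat.mod_mod]
            rw [Nat.mod_add_mod, Nat.add_mod x, h1, ← Nat.add_mod]
          rw [hval]
          have hkp : ((i + 1) * u) % p < p := Nat.mod_lt _ hp.pos
          generalize ((i + 1) * u) % p = kk at hk0 hkp
          generalize x % p ^ (e + 1) = rr at hPT
          have hlt2 : rr + kk * p ^ e < p ^ (e + 1) := by
            calc rr + kk * p ^ e < p ^ e + kk * p ^ e := by omega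
              _ = (kk + 1) * p ^ e := by ring
              _ ≤ p * p ^ e := Nat.mul_le_mul_right _ hkp
              _ = p ^ (e + 1) := by ring
          rw [Nat.mod_eq_of_lt hlt2]
          have : 1 * p ^ e ≤ kk * p ^ e :=
            Nat.mul_le_mul_right _ (Nat.one_le_iff_ne_zero.mpr hk0)
          omega
        · intro q hq hqp
          rw [TT_other hm hp hpm (Nat.prime_of_mem_primeFactors hq) hqp]
          exact hall q hq hqp
    · -- some local condition fails
      push Not at hall
      obtain ⟨q, hqm', hqp, hqT⟩ := hall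
      have hq : q.Prime := Nat.prime_of_mem_primeFactors hqm'
      have hqm : q ∣ m := Nat.dvd_of_mem_primeFactors hqm'
      have hrel := hdist q hq hqm x
      obtain ⟨k, hk⟩ : ∃ k, q = k + 1 := ⟨q - 1, by have := hq.pos; omega⟩
      have hrel2 : C x = C (q * x) - ∑ i ∈ range k, C (x + (i + 1) * (m / q)) := by
        rw [← hrel]
        conv_rhs => rw [hk]
        rw [sum_range_succ']
        rw [← hk]
        simp
      rw [hrel2]
      apply S.sub_mem
      · -- C (q x): gcd increases
        have hgt := gcd_mul_gt hm hq hqm hqT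
        have hle : Nat.gcd (q * x) m ≤ m := Nat.gcd_le_right _ (Nat.pos_of_ne_zero hm)
        refine ihA (m - Nat.gcd (q * x) m) (by omega) (q * x) rfl ?_
        intro h
        rcases (Nat.Prime.dvd_mul hp).mp h with h1 | h1
        · exact hqp ((Nat.prime_dvd_prime_iff_eq hp hq).mp h1).symm
        · exact hpx h1
      · apply S.sum_mem
        intro i hi
        have hik : i < k := mem_range.mp hi
        have hge := gcd_shift_ge hm hq hqm hqT (i + 1)
        have hpemq : p ^ (m.factorization p) ∣ m / q := by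
          have h1 : p ^ (m.factorization p) ∣ q * (m / q) := by
            rw [Nat.mul_div_cancel' hqm]; exact Nat.ordProj_dvd m p
          exact (Nat.Coprime.pow_left _ ((Nat.coprime_primes hp hq).mpr (Ne.symm hqp))).dvd_of_dvd_mul_left h1
        have hpmq : p ^ e ∣ m / q := by
          rw [he] at hpemq
          exact dvd_trans (pow_dvd_pow p (Nat.le_succ e)) hpemq
        have hbadlt : bad p m (x + (i + 1) * (m / q)) < b := by
          rw [← hbad]
          unfold bad
          apply Finset.card_lt_card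
          rw [Finset.ssubset_iff_of_subset]
          · refine ⟨q, ?_, ?_⟩
            · simp only [mem_filter]
              exact ⟨hqm', hqp, hqT⟩
            · simp only [mem_filter, not_and, not_not]
              intro _ _
              exact TT_shift hm hq hqm hqT (Nat.succ_pos _) (by omega)
          · intro q' hq'
            simp only [mem_filter] at hq' ⊢
            refine ⟨hq'.1, hq'.2.1, ?_⟩
            by_cases hqq : q' = q
            · rw [hqq]; exact hqT
            · rw [← TT_other hm hq hqm (Nat.prime_of_mem_primeFactors hq'.1) hqq x (i + 1)]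
              exact hq'.2.2
        refine ihb _ hbadlt (x + (i + 1) * (m / q)) (by omega) ?_ ?_ rfl
        · intro h
          apply hpx
          exact (Nat.dvd_add_left ((dvd_trans hpe hpmq).mul_left _)).mp h
        · unfold PP at hPP ⊢
          rw [he, Nat.add_sub_cancel] at hPP ⊢
          rw [Nat.add_mod, Nat.mod_eq_zero_of_dvd (hpmq.mul_left _)]
          simpa using hPP
  intro x hxA hpx
  by_cases hPP : PP p m x
  · exact key _ x (le_of_eq hxA) hpx hPP rfl
  · -- replace x by (m - 1) * x
    have hm1 : 1 ≤ m := Nat.one_le_iff_ne_zero.mpr hm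
    have hsum : x + (m - 1) * x = m * x := by
      obtain ⟨k, rfl⟩ : ∃ k, m = k + 1 := ⟨m - 1, by omega⟩
      simp; ring
    have hC : C x = - C ((m - 1) * x) := by
      have := hneg ((m - 1) * x) x (by rw [add_comm, hsum]; exact Dvd.intro _ rfl)
      exact this
    rw [hC]
    apply S.neg_mem
    have hcop : Nat.Coprime (m - 1) m := by
      have h1 := Nat.coprime_self_sub_right (m := 1) (n := m) hm1
      rw [Nat.coprime_comm]
      exact h1.mpr (Nat.coprime_one_right m)
    have hgcd : Nat.gcd ((m - 1) * x) m = Nat.gcd x m := Nat.Coprime.gcd_mul_left_cancel x hcop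
    have hpdm1 : p ∣ m := hpm
    refine key _ ((m - 1) * x) (by rw [hgcd]; omega) ?_ ?_ rfl
    · intro h
      apply hpx
      have : p ∣ x + (m - 1) * x := by rw [hsum]; exact hpdm1.mul_right x
      exact (Nat.dvd_add_left h).mp this
    · unfold PP at hPP ⊢
      rw [he, Nat.add_sub_cancel] at hPP ⊢
      have hdm : p ^ e ∣ x + (m - 1) * x := by
        rw [hsum]
        exact (dvd_trans hpdm (Nat.div_dvd_of_dvd hpm)).mul_right x
      have hpepos : 0 < p ^ e := pow_pos hp.pos e
      have h1 : x % p ^ e < p ^ e := Nat.mod_lt _ hpepos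
      have h2 : ((m - 1) * x) % p ^ e < p ^ e := Nat.mod_lt _ hpepos
      have h3 : (x % p ^ e + ((m - 1) * x) % p ^ e) % p ^ e = 0 := by
        rw [← Nat.add_mod]; exact Nat.mod_eq_zero_of_dvd hdm
      have hx0 : x % p ^ e ≠ 0 := by
        intro h
        exact hpx (dvd_trans hpe (Nat.dvd_of_mod_eq_zero h))
      have hx00 : 1 ≤ x % p ^ e := Nat.one_le_iff_ne_zero.mpr hx0
      generalize ((m - 1) * x) % p ^ e = ww at h2 h3 ⊢
      have hsum2 : x % p ^ e + ww = p ^ e := by
        obtain ⟨k, hk⟩ := Nat.dvd_of_mod_eq_zero h3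
        have hk2 : k < 2 := by
          by_contra hcon
          have : p ^ e * 2 ≤ p ^ e * k := Nat.mul_le_mul_left _ (by omega)
          omega
        have hk0 : 0 < k := by
          rcases Nat.eq_zero_or_pos k with h | h
          · subst h; omega
          · exact h
        have : k = 1 := by omega
        subst this
        omega
      have hne : 2 * (x % p ^ e) ≠ p ^ e := by
        intro h
        -- then p = 2 and x % p^e = p^(e-1), but p ∤ x forces p^e = 2
        have hp2 : p = 2 := by
          have h2 : 2 ∣ p ^ e := ⟨_, h.symm⟩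
          exact ((Nat.prime_dvd_prime_iff_eq Nat.prime_two hp).mp (Nat.prime_two.dvd_of_dvd_pow h2)).symm
        subst hp2
        obtain ⟨e', rfl⟩ : ∃ e', e = e' + 1 := ⟨e - 1, by omega⟩
        have h4 : x % 2 ^ (e' + 1) = 2 ^ e' := by
          rw [pow_succ] at h ⊢; omega
        rcases Nat.eq_zero_or_pos e' with h0 | h0
        · subst h0; norm_num at hbig
        · apply hpx
          have h5 : 2 ∣ x % 2 ^ (e' + 1) := by rw [h4]; exact dvd_pow_self 2 (by omega)
          exact (Nat.dvd_mod_iff (dvd_pow_self 2 (by omega))).mp h5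
      omega

end Pool.Agent.H916R2
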