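import Pool.Agent.H916R2.Saw

/-!
Linear independence of Stickelberger sums and the count of the relevant characters.
-/

namespace Pool.Agent.H916R2

open Finset

variable {m : ℕ} [NeZero m]

lemma SS_unit (χ : DirichletCharacter ℂ m) (u : (ZMod m)ˣ) (a : ZMod m) :
    SS χ ((u : ZMod m) * a) = (χ u)⁻¹ * SS χ a := by
  unfold SS
  rw [mul_sum, ← Equiv.sum_comp (Equiv.mulRight u⁻¹)]
  refine sum_congr rfl fun t _ => ?_
  simp only [Equiv.coe_mulRight, Units.val_mul, map_mul]
  have h1 : (χ u) * χ ((u⁻¹ : (ZMod m)ˣ) : ZMod m) = 1 := by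
    rw [← map_mul]; simp
  have h2 : χ ((u⁻¹ : (ZMod m)ˣ) : ZMod m) = (χ u)⁻¹ := by
    exact (inv_eq_of_mul_eq_one_right h1).symm
  rw [h2]
  have h3 : (t : ZMod m) * ((u⁻¹ : (ZMod m)ˣ) : ZMod m) * ((u : ZMod m) * a) = (t : ZMod m) * a := by
    have : ((u⁻¹ : (ZMod m)ˣ) : ZMod m) * (u : ZMod m) = 1 := by simp
    linear_combination (t : ZMod m) * a * this
  rw [h3]
  ring

lemma SS_neg (χ : DirichletCharacter ℂ m) (a : ZMod m) : SS χ (-a) = - SS χ a := by
  unfold SS
  rw [← sum_neg_distrib]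
  refine sum_congr rfl fun t _ => ?_
  rw [mul_neg, saw_neg]
  push_cast; ring

lemma SS_dist (χ : DirichletCharacter ℂ m) {p d : ℕ} (hpd : p * d = m) (a : ZMod m) :
    ∑ i ∈ range p, SS χ (a + (i : ZMod m) * (d : ZMod m)) = SS χ ((p : ZMod m) * a) := by
  unfold SS
  rw [sum_comm]
  refine sum_congr rfl fun t _ => ?_
  rw [← mul_sum]
  congr 1
  rw [← saw_dist_unit hpd]
  push_cast
  rfl

theorem indep (X : Finset (DirichletCharacter ℂ m)) (hX : ∀ χ ∈ X, χ.Odd)
    (B : Finset (ZMod m)) (hcard : B.card ≤ X.card)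
    (hvan : ∀ α : DirichletCharacter ℂ m → ℂ, (∀ b ∈ B, ∑ χ ∈ X, α χ * SS χ b = 0) →
      ∀ a, ∑ χ ∈ X, α χ * SS χ a = 0)
    (x : ZMod m → ℂ) (hx : ∀ χ ∈ X, ∑ b ∈ B, x b * SS χ b = 0) : ∀ b ∈ B, x b = 0 := by
  classical
  let v : X → (B → ℂ) := fun χ b => SS χ.1 b.1
  have hv : LinearIndependent ℂ v := by
    rw [Fintype.linearIndependent_iff]
    intro g hg χ0
    let α : DirichletCharacter ℂ m → ℂ := fun χ => if h : χ ∈ X then g ⟨χ, h⟩ else 0
    have hα : ∀ a, ∑ χ ∈ X, α χ * SS χ a = ∑ χ : X, g χ * SS χ.1 a := by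
      intro a
      rw [← Finset.sum_coe_sort X (fun χ => α χ * SS χ a)]
      refine sum_congr rfl fun χ _ => ?_
      simp only [α, dif_pos χ.2]
    have h1 : ∀ a, ∑ χ : X, g χ * SS χ.1 a = 0 := by
      intro a
      rw [← hα]
      apply hvan α
      intro b hb
      rw [hα]
      have := congrFun hg ⟨b, hb⟩
      simpa [v, Finset.sum_apply] using this
    obtain ⟨a, ha⟩ := exists_SS_ne_zero χ0.1 (hX χ0.1 χ0.2)
    let f : X → ((ZMod m)ˣ →* ℂ) := fun χ => (Units.coeHom ℂ).comp (MulChar.toUnitHom (χ.1)⁻¹)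
    have hf : Function.Injective f := by
      intro χ ψ h
      have h2 : ∀ u : (ZMod m)ˣ, (χ.1)⁻¹ (u : ZMod m) = (ψ.1)⁻¹ (u : ZMod m) := by
        intro u
        have := DFunLike.congr_fun h u
        simpa [f, MulChar.coe_toUnitHom] using this
      have h3 : (χ.1)⁻¹ = (ψ.1)⁻¹ := MulChar.ext h2
      exact Subtype.ext (inv_injective h3)
    have hli := (linearIndependent_monoidHom (ZMod m)ˣ ℂ).comp f hf
    rw [Fintype.linearIndependent_iff] at hli
    have h2 := hli (fun χ => g χ * SS χ.1 a) (by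
      funext u
      simp only [Function.comp_apply, Finset.sum_apply, Pi.smul_apply, smul_eq_mul, Pi.zero_apply]
      rw [← h1 ((u : ZMod m) * a)]
      refine sum_congr rfl fun χ _ => ?_
      rw [SS_unit]
      have : (f χ) u = (χ.1 u)⁻¹ := by
        simp only [f, MonoidHom.comp_apply, Units.coeHom_apply, MulChar.coe_toUnitHom,
          MulChar.inv_apply_eq_inv']
      rw [this]
      ring) χ0
    exact (mul_eq_zero.mp h2).resolve_right ha
  have hle : Fintype.card X ≤ Module.finrank ℂ (B → ℂ) := hv.fintype_card_le_finrank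
  have hfr : Module.finrank ℂ (B → ℂ) = B.card := by simp
  have hcX : Fintype.card X = X.card := Fintype.card_coe X
  have heq : Fintype.card X = Module.finrank ℂ (B → ℂ) := by
    apply le_antisymm hle
    rw [hfr, hcX]; exact hcard
  have hspan := hv.span_eq_top_of_card_eq_finrank' heq
  let φ : (B → ℂ) →ₗ[ℂ] ℂ :=
    { toFun := fun w => ∑ b : B, x b.1 * w b
      map_add' := by
        intro w w'
        rw [← sum_add_distrib]
        refine sum_congr rfl fun b _ => ?_
        simp only [Pi.add_apply]; ring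
      map_smul' := by
        intro c w
        simp only [RingHom.id_apply, smul_eq_mul, mul_sum, Pi.smul_apply]
        refine sum_congr rfl fun b _ => ?_
        ring }
  have hφ : φ = 0 := by
    apply LinearMap.ext_on_range hspan
    intro χ
    simp only [LinearMap.zero_apply]
    change ∑ b : B, x b.1 * SS χ.1 b.1 = 0
    rw [Finset.sum_coe_sort B (fun b => x b * SS χ.1 b)]
    exact hx χ.1 χ.2
  intro b hb
  have h := congrArg (fun ψ : (B → ℂ) →ₗ[ℂ] ℂ => ψ (Pi.single ⟨b, hb⟩ 1)) hφ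
  simp only [LinearMap.zero_apply] at h
  change ∑ b' : B, x b'.1 * (Pi.single (⟨b, hb⟩ : B) (1 : ℂ) : B → ℂ) b' = 0 at h
  rw [Finset.sum_eq_single (⟨b, hb⟩ : B)] at h
  · simpa using h
  · intro b' _ hne
    rw [Pi.single_eq_of_ne hne, mul_zero]
  · intro h'
    exact absurd (Finset.mem_univ _) h'

open scoped Classical in
/-- The odd characters that are nontrivial on `1 + d`. -/
noncomputable def XX (m d : ℕ) : Finset (DirichletCharacter ℂ m) :=
  Finset.univ.filter (fun χ => χ.Odd ∧ χ (1 + (d : ZMod m)) ≠ 1)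

lemma card_XX {p d : ℕ} (hp : p.Prime) (hpd : p * d = m) (hpd' : p ∣ d) (hd3 : 3 ≤ d) :
    2 * p * (XX m d).card = (p - 1) * Nat.totient m := by
  classical
  have hd0 : 0 < d := by omega
  have hpd0 : ((p : ℕ) : ZMod m) * (d : ZMod m) = 0 := by
    have : ((p * d : ℕ) : ZMod m) = 0 := by rw [hpd]; simp
    simpa using this
  have hdd : (d : ZMod m) * (d : ZMod m) = 0 := by
    obtain ⟨k, hk⟩ := hpd'
    have : ((d * d : ℕ) : ZMod m) = 0 := by
      rw [ZMod.natCast_eq_zero_iff, ← hpd]
      exact Nat.mul_dvd_mul ⟨k, hk⟩ dvd_rfl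
    simpa using this
  have hpow : ∀ i : ℕ, (1 + (d : ZMod m)) ^ i = 1 + (i : ZMod m) * (d : ZMod m) := by
    intro i
    induction i with
    | zero => simp
    | succ i ih =>
      rw [pow_succ, ih]
      push_cast
      linear_combination (i : ZMod m) * hdd
  -- the pointwise value
  have hpt : ∀ χ : DirichletCharacter ℂ m,
      (1 - χ (-1)) * ((p : ℂ) - ∑ i ∈ range p, χ (1 + (i : ZMod m) * (d : ZMod m))) =
        if χ ∈ XX m d then 2 * (p : ℂ) else 0 := by
    intro χ
    have hsum : ∑ i ∈ range p, χ (1 + (i : ZMod m) * (d : ZMod m)) =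
        ∑ i ∈ range p, (χ (1 + (d : ZMod m))) ^ i := by
      refine sum_congr rfl fun i _ => ?_
      rw [← hpow, map_pow]
    have hyp : (χ (1 + (d : ZMod m))) ^ p = 1 := by
      rw [← map_pow, hpow, hpd0, add_zero, map_one]
    rw [hsum]
    unfold XX
    simp only [mem_filter, mem_univ, true_and]
    rcases χ.even_or_odd with he | ho
    · have h1 : χ (-1) = 1 := he
      have h2 : ¬ (χ.Odd ∧ χ (1 + (d : ZMod m)) ≠ 1) := fun h => (he.not_odd) h.1
      rw [if_neg h2, h1]; ring
    · have h1 : χ (-1) = -1 := ho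
      by_cases hy : χ (1 + (d : ZMod m)) = 1
      · have h2 : ¬ (χ.Odd ∧ χ (1 + (d : ZMod m)) ≠ 1) := fun h => h.2 hy
        rw [if_neg h2, hy]; simp
      · rw [if_pos ⟨ho, hy⟩, h1]
        have h3 : ∑ i ∈ range p, (χ (1 + (d : ZMod m))) ^ i = 0 := by
          have := geom_sum_mul (χ (1 + (d : ZMod m))) p
          rw [hyp, sub_self] at this
          exact (mul_eq_zero.mp this).resolve_right (sub_ne_zero.mpr hy)
        rw [h3]; ring
  have hA : ∑ χ : DirichletCharacter ℂ m,
      (1 - χ (-1)) * ((p : ℂ) - ∑ i ∈ range p, χ (1 + (i : ZMod m) * (d : ZMod m))) =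
      2 * (p : ℂ) * (XX m d).card := by
    rw [sum_congr rfl fun χ _ => hpt χ, ← Finset.sum_filter]
    simp only [Finset.filter_mem_eq_inter, Finset.univ_inter, sum_const, nsmul_eq_mul]
    ring
  have hB : ∑ χ : DirichletCharacter ℂ m,
      (1 - χ (-1)) * ((p : ℂ) - ∑ i ∈ range p, χ (1 + (i : ZMod m) * (d : ZMod m))) =
      ((p : ℂ) - 1) * Nat.totient m := by
    have hexp : ∀ χ : DirichletCharacter ℂ m,
        (1 - χ (-1)) * ((p : ℂ) - ∑ i ∈ range p, χ (1 + (i : ZMod m) * (d : ZMod m))) =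
        (p : ℂ) * χ 1 - ∑ i ∈ range p, χ (1 + (i : ZMod m) * (d : ZMod m)) - (p : ℂ) * χ (-1) +
          ∑ i ∈ range p, χ (-(1 + (i : ZMod m) * (d : ZMod m))) := by
      intro χ
      have : ∀ i : ℕ, χ (-(1 + (i : ZMod m) * (d : ZMod m))) =
          χ (-1) * χ (1 + (i : ZMod m) * (d : ZMod m)) := by
        intro i; rw [← map_mul]; congr 1; ring
      rw [sum_congr rfl fun i _ => this i, ← mul_sum, map_one]
      ring
    rw [sum_congr rfl fun χ _ => hexp χ]
    simp only [sum_add_distrib, sum_sub_distrib]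
    rw [← mul_sum, ← mul_sum, sum_comm, DirichletCharacter.sum_characters_eq,
      DirichletCharacter.sum_characters_eq, if_pos rfl]
    have hneg1 : ¬ ((-1 : ZMod m) = 1) := by
      intro h
      have h2 : ((2 : ℕ) : ZMod m) = 0 := by
        push_cast
        linear_combination -h
      rw [ZMod.natCast_eq_zero_iff] at h2
      have := Nat.le_of_dvd (by norm_num) h2
      have : 3 * 1 ≤ p * d := by nlinarith [hp.two_le]
      omega
    rw [if_neg hneg1]
    have hs1 : ∑ i ∈ range p, ∑ χ : DirichletCharacter ℂ m, χ (1 + (i : ZMod m) * (d : ZMod m)) =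
        Nat.totient m := by
      simp only [DirichletCharacter.sum_characters_eq]
      rw [Finset.sum_eq_single 0]
      · simp
      · intro i hi hi0
        rw [if_neg]
        intro h
        have h2 : ((i * d : ℕ) : ZMod m) = 0 := by
          push_cast; linear_combination h
        rw [ZMod.natCast_eq_zero_iff, ← hpd] at h2
        have h3 := Nat.dvd_of_mul_dvd_mul_right hd0 h2
        exact absurd (Nat.le_of_dvd (Nat.pos_of_ne_zero hi0) h3) (by simpa using mem_range.mp hi)
      · intro h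
        exact absurd (mem_range.mpr hp.pos) h
    have hs2 : ∑ χ : DirichletCharacter ℂ m, ∑ i ∈ range p, χ (-(1 + (i : ZMod m) * (d : ZMod m))) =
        0 := by
      rw [sum_comm]
      apply sum_eq_zero
      intro i _
      rw [DirichletCharacter.sum_characters_eq, if_neg]
      intro h
      have h2 : ((2 + i * d : ℕ) : ZMod m) = 0 := by
        push_cast; linear_combination -h
      rw [ZMod.natCast_eq_zero_iff] at h2
      have h3 : d ∣ 2 + i * d := dvd_trans (Dvd.intro_left p hpd) h2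
      have h4 : d ∣ 2 := (Nat.dvd_add_left (Dvd.intro_left i rfl)).mp h3
      have := Nat.le_of_dvd (by norm_num) h4
      omega
    rw [hs1, hs2]
    ring
  rw [hA] at hB
  have hp1 : 1 ≤ p := hp.one_le
  have : ((2 * p * (XX m d).card : ℕ) : ℂ) = (((p - 1) * Nat.totient m : ℕ) : ℂ) := by
    push_cast [hp1]
    exact hB
  exact_mod_cast this

end Pool.Agent.H916R2
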