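import Pool.Agent.H916R2.Closure

/-!
Dictionary between Hodge characters and relations of the sawtooth; the reduction theorem.
-/

namespace Pool.Agent.H916R2

set_option linter.unusedSectionVars false

open Finset

variable {m : ℕ} [NeZero m]

lemma saw_of_ne_zero {b : ZMod m} (h : b ≠ 0) : saw b = 2 * (b.val : ℤ) - m := by
  unfold saw; rw [if_neg h]

lemma unit_mul_ne_zero (t : (ZMod m)ˣ) {a : ZMod m} (h : a ≠ 0) : (t : ZMod m) * a ≠ 0 := by
  intro h'
  exact h ((Units.mul_right_eq_zero t).mp h')

lemma saw_half {b : ZMod m} (h : b + b = 0) : saw b = 0 := by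
  have h1 : -b = b := neg_eq_of_add_eq_zero_right h
  have h2 := saw_neg b
  rw [h1] at h2
  omega

lemma saw_sum_eq (s : Multiset (ZMod m)) (h0 : (0 : ZMod m) ∉ s) (t : (ZMod m)ˣ) :
    (s.map fun a => saw ((t : ZMod m) * a)).sum =
      2 * (((s.map fun a => ((t : ZMod m) * a).val).sum : ℕ) : ℤ) - m * (Multiset.card s : ℤ) := by
  induction s using Multiset.induction_on with
  | empty => simp
  | cons a s ih =>
    have ha : a ≠ 0 := fun h => h0 (by rw [h]; exact Multiset.mem_cons_self _ _)
    rw [Multiset.map_cons, Multiset.sum_cons, ih (fun h => h0 (Multiset.mem_cons_of_mem h)),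
      saw_of_ne_zero (unit_mul_ne_zero t ha), Multiset.map_cons, Multiset.sum_cons,
      Multiset.card_cons]
    push_cast
    ring

lemma IsHodge.saw_sum {s : Multiset (ZMod m)} (hs : IsHodge m s) (t : (ZMod m)ˣ) :
    (s.map fun a => saw ((t : ZMod m) * a)).sum = 0 := by
  rw [saw_sum_eq s hs.1 t]
  have := hs.2.2.2 t
  have h2 : ((2 * (s.map fun a => ((t : ZMod m) * a).val).sum : ℕ) : ℤ) =
      ((m * Multiset.card s : ℕ) : ℤ) := by rw [this]
  rw [Nat.cast_mul, Nat.cast_mul, Nat.cast_ofNat] at h2
  linarith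

lemma isHodge_of_saw {s : Multiset (ZMod m)} (h0 : (0 : ZMod m) ∉ s)
    (heven : Even (Multiset.card s))
    (h : ∀ t : (ZMod m)ˣ, (s.map fun a => saw ((t : ZMod m) * a)).sum = 0) : IsHodge m s := by
  have hval : ∀ t : (ZMod m)ˣ,
      2 * (s.map fun a => ((t : ZMod m) * a).val).sum = m * Multiset.card s := by
    intro t
    have h1 := saw_sum_eq s h0 t
    rw [h t] at h1
    have h2 : ((2 * (s.map fun a => ((t : ZMod m) * a).val).sum : ℕ) : ℤ) =
        ((m * Multiset.card s : ℕ) : ℤ) := by
      rw [Nat.cast_mul, Nat.cast_mul, Nat.cast_ofNat]; linarith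
    exact_mod_cast h2
  refine ⟨h0, heven, ?_, hval⟩
  obtain ⟨k, hk⟩ := heven
  have h1 := hval 1
  simp only [Units.val_one, one_mul] at h1
  have h2 : (s.map fun a => a.val).sum = m * k := by
    rw [hk] at h1
    nlinarith
  have h3 : s.sum = (((s.map fun a => a.val).sum : ℕ) : ZMod m) := by
    rw [Nat.cast_multiset_sum, Multiset.map_map]
    congr 1
    conv_lhs => rw [← Multiset.map_id s]
    apply Multiset.map_congr rfl
    intro a _
    simp [ZMod.natCast_zmod_val]
  rw [h3, h2]
  simp

lemma IsHodge.neg {s : Multiset (ZMod m)} (hs : IsHodge m s) : IsHodge m (s.map Neg.neg) := by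
  apply isHodge_of_saw
  · intro h
    obtain ⟨b, hb, hb0⟩ := Multiset.mem_map.mp h
    exact hs.1 (by rwa [neg_eq_zero.mp hb0] at hb)
  · rw [Multiset.card_map]; exact hs.2.1
  · intro t
    rw [Multiset.map_map]
    have : (s.map ((fun a => saw ((t : ZMod m) * a)) ∘ Neg.neg)).sum =
        (s.map fun a => - saw ((t : ZMod m) * a)).sum := by
      congr 1
      apply Multiset.map_congr rfl
      intro a _
      simp only [Function.comp_apply, mul_neg, saw_neg]
    rw [this, Multiset.sum_map_neg, hs.saw_sum t, neg_zero]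

/-- sums over a multiset through counts -/
lemma sum_count {R : Type*} [AddCommGroup R] (s : Multiset (ZMod m)) (g : ZMod m → R) :
    ∑ a, ((s.count a : ℕ) : ℤ) • g a = (s.map g).sum := by
  induction s using Multiset.induction_on with
  | empty => simp
  | cons b s ih =>
    rw [Multiset.map_cons, Multiset.sum_cons, ← ih]
    have : ∀ a, (((b ::ₘ s).count a : ℕ) : ℤ) • g a =
        (if a = b then g a else 0) + ((s.count a : ℕ) : ℤ) • g a := by
      intro a
      rw [Multiset.count_cons]
      split_ifs with h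
      · push_cast; rw [add_smul, one_smul, add_comm]
      · simp
    rw [sum_congr rfl fun a _ => this a, sum_add_distrib]
    congr 1
    simp

lemma IsHodge.rel {s : Multiset (ZMod m)} (hs : IsHodge m s) :
    Rel (fun a : ZMod m => ((s.count a : ℕ) : ℤ)) := by
  intro t
  have h := sum_count s (fun a => saw ((t : ZMod m) * a))
  rw [hs.saw_sum t] at h
  simpa using h

/-- A relation is represented by a Hodge character. -/
lemma exists_hodge (x : ZMod m → ℤ) (hx : Rel x) :
    ∃ s : Multiset (ZMod m), IsHodge m s ∧ ∀ (R : Type) [AddCommGroup R] (c : ZMod m → R),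
      OddDist c → ∑ a, x a • c a = (s.map c).sum := by
  classical
  let s1 : Multiset (ZMod m) := ∑ b ∈ univ.erase (0 : ZMod m),
    (Multiset.replicate (x b).toNat b + Multiset.replicate (-(x b)).toNat (-b))
  have hs1 : ∀ (R : Type) [AddCommGroup R] (c : ZMod m → R), (∀ a, c (-a) = - c a) → c 0 = 0 →
      ∑ a, x a • c a = (s1.map c).sum := by
    intro R _ c hneg hz
    have h1 : (s1.map c).sum = ∑ b ∈ univ.erase (0 : ZMod m),
        ((Multiset.replicate (x b).toNat b + Multiset.replicate (-(x b)).toNat (-b)).map c).sum := by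
      have : ∀ S : Finset (ZMod m), ((∑ b ∈ S, (Multiset.replicate (x b).toNat b +
          Multiset.replicate (-(x b)).toNat (-b))).map c).sum = ∑ b ∈ S,
          ((Multiset.replicate (x b).toNat b + Multiset.replicate (-(x b)).toNat (-b)).map c).sum := by
        intro S
        induction S using Finset.induction_on with
        | empty => simp
        | insert a S ha ih =>
          rw [Finset.sum_insert ha, Finset.sum_insert ha, Multiset.map_add, Multiset.sum_add, ih]
      exact this _
    rw [h1, ← Finset.add_sum_erase univ (fun a => x a • c a) (mem_univ (0 : ZMod m)), hz, smul_zero,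
      zero_add]
    refine sum_congr rfl fun b _ => ?_
    rw [Multiset.map_add, Multiset.sum_add, Multiset.map_replicate, Multiset.map_replicate,
      Multiset.sum_replicate, Multiset.sum_replicate, hneg]
    rcases le_total 0 (x b) with h | h
    · have e1 : ((x b).toNat : ℤ) = x b := Int.toNat_of_nonneg h
      have e2 : (-(x b)).toNat = 0 := Int.toNat_of_nonpos (by omega)
      rw [e2, zero_smul, add_zero, ← natCast_zsmul, e1]
    · have e1 : ((-(x b)).toNat : ℤ) = -(x b) := Int.toNat_of_nonneg (by omega)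
      have e2 : (x b).toNat = 0 := Int.toNat_of_nonpos h
      rw [e2, zero_smul, zero_add, ← natCast_zsmul, e1]
      simp
  have h01 : (0 : ZMod m) ∉ s1 := by
    intro h
    simp only [s1] at h
    rw [Multiset.mem_sum] at h
    obtain ⟨b, hb, h⟩ := h
    have hb0 : b ≠ 0 := (Finset.mem_erase.mp hb).1
    rw [Multiset.mem_add] at h
    rcases h with h | h
    · exact hb0 (Multiset.eq_of_mem_replicate h).symm
    · exact hb0 (neg_eq_zero.mp (Multiset.eq_of_mem_replicate h).symm)
  have hsaw : ∀ t : (ZMod m)ˣ, (s1.map fun a => saw ((t : ZMod m) * a)).sum = 0 := by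
    intro t
    rw [← hs1 ℤ (fun a => saw ((t : ZMod m) * a)) (fun a => by
      simp only [mul_neg, saw_neg]) (by simp [saw_zero])]
    have := hx t
    simpa using this
  by_cases heven : Even (Multiset.card s1)
  · refine ⟨s1, isHodge_of_saw h01 heven hsaw, ?_⟩
    intro R _ c hc
    exact hs1 R c hc.neg (hc.half 0 (by simp))
  · -- m is even
    rw [Nat.not_even_iff_odd] at heven
    have h1 := saw_sum_eq s1 h01 1
    rw [hsaw 1] at h1
    have hm2 : 2 ∣ m := by
      obtain ⟨k, hk⟩ := heven
      have h2 : (m : ℤ) * (2 * k + 1) =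
          2 * (((s1.map fun a => (((1 : (ZMod m)ˣ) : ZMod m) * a).val).sum : ℕ) : ℤ) := by
        rw [hk] at h1
        push_cast at h1
        push_cast
        linarith
      have h3 : (2 : ℤ) ∣ (m : ℤ) * (2 * k + 1) := ⟨_, h2⟩
      have h4 : (2 : ℤ) ∣ (m : ℤ) := by
        rcases Int.Prime.dvd_mul' Nat.prime_two h3 with h | h
        · exact_mod_cast h
        · exfalso; omega
      exact_mod_cast h4
    set h : ZMod m := ((m / 2 : ℕ) : ZMod m) with hh
    have hhh : h + h = 0 := by
      have : ((2 * (m / 2) : ℕ) : ZMod m) = 0 := by rw [Nat.mul_div_cancel' hm2]; simp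
      rw [hh, ← two_mul]; push_cast at this; exact this
    have hh0 : h ≠ 0 := by
      intro h'
      rw [hh, ZMod.natCast_eq_zero_iff] at h'
      have hmp := NeZero.pos m
      have h5 : 0 < m / 2 := Nat.div_pos (Nat.le_of_dvd hmp hm2) (by norm_num)
      have := Nat.le_of_dvd h5 h'
      omega
    refine ⟨h ::ₘ s1, isHodge_of_saw ?_ ?_ ?_, ?_⟩
    · rw [Multiset.mem_cons, not_or]; exact ⟨Ne.symm hh0, h01⟩
    · rw [Multiset.card_cons]; exact heven.add_one
    · intro t
      rw [Multiset.map_cons, Multiset.sum_cons, hsaw t, add_zero]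
      apply saw_half
      rw [← mul_add, hhh, mul_zero]
    · intro R _ c hc
      rw [hs1 R c hc.neg (hc.half 0 (by simp)), Multiset.map_cons, Multiset.sum_cons,
        hc.half h hhh, zero_add]

lemma iota_eq_zero {k m0 : ℕ} [NeZero m0] (h : k * m0 = m) {b : ZMod m0}
    (hb : (iota k b : ZMod m) = 0) : b = 0 := by
  have hk : 0 < k := Nat.pos_of_ne_zero (by rintro rfl; simp at h; exact NeZero.ne m h.symm)
  have hlt : k * b.val < m := by
    rw [← h]; exact Nat.mul_lt_mul_of_pos_left (ZMod.val_lt b) hk
  unfold iota at hb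
  rw [ZMod.natCast_eq_zero_iff] at hb
  have h1 := Nat.eq_zero_of_dvd_of_lt hb hlt
  rcases Nat.mul_eq_zero.mp h1 with h2 | h2
  · omega
  · exact (ZMod.val_eq_zero b).mp h2

lemma unit_iota {k m0 : ℕ} [NeZero m0] (h : k * m0 = m) (t : (ZMod m)ˣ) (b : ZMod m0) :
    (t : ZMod m) * iota k b =
      iota k (((ZMod.unitsMap (Dvd.intro_left k h : m0 ∣ m) t : (ZMod m0)ˣ) : ZMod m0) * b) := by
  have ht' : ((ZMod.unitsMap (Dvd.intro_left k h : m0 ∣ m) t : (ZMod m0)ˣ) : ZMod m0) =
      (((t : ZMod m).val : ℕ) : ZMod m0) := by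
    rw [ZMod.unitsMap_val, ZMod.natCast_val]
  rw [ht', iota_natMul h, ZMod.natCast_zmod_val]

lemma IsHodge.iota {k m0 : ℕ} [NeZero m0] (h : k * m0 = m) {s : Multiset (ZMod m0)}
    (hs : IsHodge m0 s) : IsHodge m (s.map (iota k : ZMod m0 → ZMod m)) := by
  apply isHodge_of_saw
  · intro h'
    obtain ⟨b, hb, hb0⟩ := Multiset.mem_map.mp h'
    rw [iota_eq_zero h hb0] at hb
    exact hs.1 hb
  · rw [Multiset.card_map]; exact hs.2.1
  · intro t
    rw [Multiset.map_map]
    have : (s.map ((fun a => saw ((t : ZMod m) * a)) ∘ (H916R2.iota k : ZMod m0 → ZMod m))).sum =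
        (s.map fun b => (k : ℤ) * saw (((ZMod.unitsMap (Dvd.intro_left k h : m0 ∣ m) t :
          (ZMod m0)ˣ) : ZMod m0) * b)).sum := by
      congr 1
      apply Multiset.map_congr rfl
      intro b _
      simp only [Function.comp_apply]
      rw [unit_iota h, saw_iota h]
    rw [this, Multiset.sum_map_mul_left, hs.saw_sum, mul_zero]

/-- existence of reductions -/
theorem red_exists : ∀ (n m m0 k : ℕ) [NeZero m] [NeZero m0], k = n → k * m0 = m →
    (∀ p, p.Prime → p ∣ m → p ∣ m0) → (4 ∣ m → 4 ∣ m0) → Red m m0 k := by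
  intro n
  induction n using Nat.strong_induction_on with
  | _ n ih =>
  intro m m0 k _ _ hkn hkm hpr h4
  have hm : m ≠ 0 := NeZero.ne m
  have hm0 : m0 ≠ 0 := NeZero.ne m0
  have hk0 : k ≠ 0 := by rintro rfl; simp at hkm; exact hm hkm.symm
  by_cases hk1 : k = 1
  · subst hk1
    rw [one_mul] at hkm
    subst hkm
    exact Red.refl m0
  · -- choose a prime dividing k
    have hp := Nat.minFac_prime hk1
    set p := k.minFac with hpdef
    obtain ⟨k', hk'⟩ : p ∣ k := Nat.minFac_dvd k
    have hk'0 : k' ≠ 0 := by rintro rfl; simp at hk'; exact hk0 hk'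
    have : NeZero (k' * m0) := ⟨Nat.mul_ne_zero hk'0 hm0⟩
    have hpd : p * (k' * m0) = m := by rw [← hkm, hk']; ring
    have hpm : p ∣ m := Dvd.intro _ hpd
    have hpm0 : p ∣ m0 := hpr p hp hpm
    have hpd' : p ∣ k' * m0 := hpm0.mul_left k'
    have hfac : m.factorization p = (k' * m0).factorization p + 1 := by
      rw [← hpd, Nat.factorization_mul hp.ne_zero (Nat.mul_ne_zero hk'0 hm0), Finsupp.add_apply,
        hp.factorization_self]
      ring
    have hbig : 3 ≤ p ^ (m.factorization p - 1) := by
      rw [hfac, Nat.add_sub_cancel]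
      have hf1 : 1 ≤ (k' * m0).factorization p :=
        hp.factorization_pos_of_dvd (Nat.mul_ne_zero hk'0 hm0) hpd'
      rcases hp.eq_two_or_odd with h2 | h2
      · -- p = 2
        have h44 : 4 ∣ m := by
          rw [← hpd, h2]
          rw [h2] at hpd'
          exact Nat.mul_dvd_mul_left 2 hpd'
        have h440 := h4 h44
        have h5 : 4 ∣ k' * m0 := h440.mul_left k'
        have h6 : 2 ≤ (k' * m0).factorization p := by
          rw [h2]
          exact (Nat.prime_two.pow_dvd_iff_le_factorization (Nat.mul_ne_zero hk'0 hm0)).mp h5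
        calc 3 ≤ 2 ^ 2 := by norm_num
          _ ≤ p ^ 2 := Nat.pow_le_pow_left hp.two_le 2
          _ ≤ _ := Nat.pow_le_pow_right hp.pos h6
      · have hp3 : 3 ≤ p := by
          have := hp.two_le
          omega
        calc 3 ≤ p := hp3
          _ = p ^ 1 := (pow_one p).symm
          _ ≤ _ := Nat.pow_le_pow_right hp.pos hf1
    have hstep : Red m (k' * m0) p := red_step hp hpd hpd' hbig
    have hk'lt : k' < n := by
      rw [← hkn, hk']
      have := hp.two_le
      have : 0 < k' := Nat.pos_of_ne_zero hk'0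
      nlinarith
    have hrec : Red (k' * m0) m0 k' := by
      apply ih k' hk'lt (k' * m0) m0 k' rfl rfl
      · intro q hq hqd
        exact hpr q hq (dvd_trans hqd (Dvd.intro_left p hpd))
      · intro h
        exact h4 (dvd_trans h (Dvd.intro_left p hpd))
    have := Red.trans hpd hstep hrec
    rwa [← hk'] at this

end Pool.Agent.H916R2
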