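import Pool.Agent.H916R2.OddChar

/-!
Distribution relations for the sawtooth and for the Stickelberger sums.
-/

namespace Pool.Agent.H916R2

set_option linter.unusedSectionVars false

open Finset

variable {m : ℕ} [NeZero m]

/-- shift invariance of sums over cosets of the subgroup of order `p` -/
lemma coset_sum_shift {Q : Type*} [AddCommMonoid Q] (f : ZMod m → Q) {p d : ℕ} (hpd : p * d = m)
    (a : ZMod m) :
    ∑ i ∈ range p, f (a + (d : ZMod m) + (i : ZMod m) * (d : ZMod m)) = ∑ i ∈ range p, f (a + (i : ZMod m) * (d : ZMod m)) := by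
  have h1 : ∑ i ∈ range p, f (a + (d : ZMod m) + (i : ZMod m) * (d : ZMod m)) =
      ∑ i ∈ range p, f (a + ((i + 1 : ℕ) : ZMod m) * (d : ZMod m)) := by
    refine sum_congr rfl fun i _ => ?_
    congr 1; push_cast; ring
  rw [h1]
  have hp : ((p : ℕ) : ZMod m) * (d : ZMod m) = 0 := by
    have : ((p * d : ℕ) : ZMod m) = 0 := by rw [hpd]; simp
    simpa using this
  have h2 := sum_range_succ (fun i : ℕ => f (a + (i : ZMod m) * (d : ZMod m))) p
  have h3 := sum_range_succ' (fun i : ℕ => f (a + (i : ZMod m) * (d : ZMod m))) p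
  rw [h3] at h2
  rcases Nat.eq_zero_or_pos p with rfl | hpos
  · simp
  · obtain ⟨k, rfl⟩ : ∃ k, p = k + 1 := ⟨p - 1, by omega⟩
    rw [sum_range_succ, sum_range_succ' (fun i : ℕ => f (a + (i : ZMod m) * (d : ZMod m)))]
    rw [hp]
    simp

lemma coset_sum_shift_mul {Q : Type*} [AddCommMonoid Q] (f : ZMod m → Q) {p d : ℕ} (hpd : p * d = m)
    (a : ZMod m) (j : ℕ) :
    ∑ i ∈ range p, f (a + (j : ZMod m) * (d : ZMod m) + (i : ZMod m) * (d : ZMod m)) =
      ∑ i ∈ range p, f (a + (i : ZMod m) * (d : ZMod m)) := by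
  induction j with
  | zero => simp
  | succ j ih =>
    have := coset_sum_shift f hpd (a + (j : ZMod m) * (d : ZMod m))
    rw [ih] at this
    rw [← this]
    refine sum_congr rfl fun i _ => ?_
    congr 1; push_cast; ring

lemma saw_natCast {x : ℕ} (hx : x < m) : saw (x : ZMod m) = if x = 0 then 0 else 2 * (x : ℤ) - m := by
  unfold saw
  rw [ZMod.val_natCast, Nat.mod_eq_of_lt hx]
  by_cases h : x = 0
  · subst h; simp
  · rw [if_neg h, if_neg]
    intro h'
    rw [ZMod.natCast_eq_zero_iff] at h'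
    exact h (Nat.eq_zero_of_dvd_of_lt h' hx)

/-- The distribution relation for the sawtooth. -/
theorem saw_dist {p d : ℕ} (hpd : p * d = m) (a : ZMod m) :
    ∑ i ∈ range p, saw (a + (i : ZMod m) * (d : ZMod m)) = saw ((p : ZMod m) * a) := by
  have hm : 0 < m := NeZero.pos m
  have hd : 0 < d := Nat.pos_of_ne_zero (by rintro rfl; simp at hpd; omega)
  have hp : 0 < p := Nat.pos_of_ne_zero (by rintro rfl; simp at hpd; omega)
  set r := a.val % d with hr
  set j := a.val / d with hj
  have hrd : r < d := Nat.mod_lt _ hd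
  have ha : a = (r : ZMod m) + (j : ZMod m) * d := by
    have : a.val = r + j * d := by rw [hr, hj, mul_comm]; exact (Nat.mod_add_div _ _).symm
    calc a = ((a.val : ℕ) : ZMod m) := (ZMod.natCast_zmod_val a).symm
      _ = ((r + j * d : ℕ) : ZMod m) := by rw [← this]
      _ = _ := by push_cast; ring
  have hpd0 : ((p : ℕ) : ZMod m) * (d : ZMod m) = 0 := by
    have : ((p * d : ℕ) : ZMod m) = 0 := by rw [hpd]; simp
    simpa using this
  have hpa : (p : ZMod m) * a = ((p * r : ℕ) : ZMod m) := by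
    rw [ha]; push_cast
    linear_combination (j : ZMod m) * hpd0
  have hL : ∑ i ∈ range p, saw (a + (i : ZMod m) * (d : ZMod m)) =
      ∑ i ∈ range p, saw ((r : ZMod m) + (i : ZMod m) * (d : ZMod m)) := by
    conv_lhs => rw [ha]
    exact coset_sum_shift_mul (fun b => saw b) hpd (r : ZMod m) j
  rw [hL, hpa]
  have hterm : ∀ i ∈ range p, saw ((r : ZMod m) + (i : ZMod m) * (d : ZMod m)) =
      if r + i * d = 0 then 0 else 2 * ((r + i * d : ℕ) : ℤ) - m := by
    intro i hi
    have hi' : i < p := mem_range.mp hi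
    have hlt : r + i * d < m := by
      calc r + i * d < d + i * d := by omega
        _ = (i + 1) * d := by ring
        _ ≤ p * d := Nat.mul_le_mul_right _ hi'
        _ = m := hpd
    have : (r : ZMod m) + (i : ZMod m) * d = ((r + i * d : ℕ) : ZMod m) := by push_cast; ring
    rw [this, saw_natCast hlt]
  rw [sum_congr rfl hterm]
  have hprm : p * r < m := by
    calc p * r < p * d := Nat.mul_lt_mul_of_pos_left hrd hp
      _ = m := hpd
  rw [saw_natCast hprm]
  have hgauss : ∑ i ∈ range p, (2 * ((i : ℕ) : ℤ)) = (p : ℤ) * (p - 1) := by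
    have h := Finset.sum_range_id_mul_two p
    have h2 : (((∑ i ∈ range p, i) * 2 : ℕ) : ℤ) = ((p * (p - 1) : ℕ) : ℤ) := by rw [h]
    rw [Nat.cast_mul, Nat.cast_mul, Nat.cast_sub hp, Nat.cast_sum] at h2
    rw [← mul_sum]
    push_cast at h2
    linarith
  by_cases h0 : r = 0
  · subst_vars
    rw [h0]
    simp only [mul_zero, if_true, zero_add]
    obtain ⟨k, rfl⟩ : ∃ k, p = k + 1 := ⟨p - 1, by omega⟩
    rw [sum_range_succ'] at hgauss ⊢
    simp only [zero_mul, if_true, add_zero, CharP.cast_eq_zero, mul_zero] at hgauss ⊢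
    have hne : ∀ i ∈ range k, (if (i + 1) * d = 0 then (0 : ℤ) else 2 * (((i + 1) * d : ℕ) : ℤ) - (((k + 1) * d : ℕ) : ℤ)) =
        (2 * ((i + 1 : ℕ) : ℤ)) * d - ((k + 1) * d : ℕ) := by
      intro i _
      rw [if_neg (by positivity)]
      push_cast; ring
    rw [sum_congr rfl hne, sum_sub_distrib, ← sum_mul, hgauss]
    simp
    ring
  · have hne : ∀ i ∈ range p, (if r + i * d = 0 then (0 : ℤ) else 2 * ((r + i * d : ℕ) : ℤ) - m) =
        (2 * r - m) + (2 * ((i : ℕ) : ℤ)) * d := by
      intro i _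
      rw [if_neg (by omega)]
      push_cast; ring
    have hpr : p * r ≠ 0 := by positivity
    rw [sum_congr rfl hne, sum_add_distrib, ← sum_mul, hgauss, if_neg hpr]
    have hpd' : (m : ℤ) = p * d := by exact_mod_cast hpd.symm
    simp
    rw [hpd']
    ring

/-- multiplication by a unit permutes cosets of the subgroup of order `p` -/
lemma coset_sum_unit {Q : Type*} [AddCommMonoid Q] (f : ZMod m → Q) {p d : ℕ} (hpd : p * d = m)
    (t : (ZMod m)ˣ) (a : ZMod m) :
    ∑ i ∈ range p, f ((t : ZMod m) * (a + (i : ZMod m) * (d : ZMod m))) =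
      ∑ i ∈ range p, f ((t : ZMod m) * a + (i : ZMod m) * (d : ZMod m)) := by
  have hm : 0 < m := NeZero.pos m
  have hd : 0 < d := Nat.pos_of_ne_zero (by rintro rfl; simp at hpd; omega)
  have hp : 0 < p := Nat.pos_of_ne_zero (by rintro rfl; simp at hpd; omega)
  have hpd0 : ((p : ℕ) : ZMod m) * (d : ZMod m) = 0 := by
    have : ((p * d : ℕ) : ZMod m) = 0 := by rw [hpd]; simp
    simpa using this
  have hmod : ∀ x : ℕ, ((x % p : ℕ) : ZMod m) * (d : ZMod m) = (x : ZMod m) * d := by
    intro x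
    conv_rhs => rw [← Nat.mod_add_div x p]
    push_cast
    linear_combination - ((x / p : ℕ) : ZMod m) * hpd0
  have hinj : ∀ x y : ℕ, x < p → y < p → (x : ZMod m) * (d : ZMod m) = (y : ZMod m) * d → x = y := by
    intro x y hx hy h
    have h1 : ((x * d : ℕ) : ZMod m) = ((y * d : ℕ) : ZMod m) := by push_cast; exact h
    rw [ZMod.natCast_eq_natCast_iff', Nat.mod_eq_of_lt, Nat.mod_eq_of_lt] at h1
    · exact Nat.eq_of_mul_eq_mul_right hd h1
    · rw [← hpd]; exact Nat.mul_lt_mul_of_pos_right hy hd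
    · rw [← hpd]; exact Nat.mul_lt_mul_of_pos_right hx hd
  have ht : ∀ i : ℕ, (t : ZMod m) * ((i : ZMod m) * (d : ZMod m)) =
      ((((t : ZMod m).val * i) % p : ℕ) : ZMod m) * d := by
    intro i
    rw [hmod]
    push_cast
    rw [ZMod.natCast_zmod_val]
    ring
  refine sum_bij (fun i _ => ((t : ZMod m).val * i) % p) ?_ ?_ ?_ ?_
  · intro i _
    exact mem_range.mpr (Nat.mod_lt _ hp)
  · intro i hi j hj h
    have h1 := ht i
    have h2 := ht j
    rw [h, ← h2] at h1
    exact hinj i j (mem_range.mp hi) (mem_range.mp hj) (t.isUnit.mul_left_cancel h1)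
  · intro j hj
    refine ⟨(((t⁻¹ : (ZMod m)ˣ) : ZMod m).val * j) % p, mem_range.mpr (Nat.mod_lt _ hp), ?_⟩
    apply hinj _ _ (Nat.mod_lt _ hp) (mem_range.mp hj)
    rw [← ht]
    rw [hmod]
    push_cast
    rw [ZMod.natCast_zmod_val]
    have : (t : ZMod m) * ((t⁻¹ : (ZMod m)ˣ) : ZMod m) = 1 := by simp
    linear_combination (j : ZMod m) * d * this
  · intro i _
    congr 1
    rw [mul_add, ht]

theorem saw_dist_unit {p d : ℕ} (hpd : p * d = m) (t : (ZMod m)ˣ) (a : ZMod m) :
    ∑ i ∈ range p, saw ((t : ZMod m) * (a + (i : ZMod m) * (d : ZMod m))) =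
      saw ((t : ZMod m) * ((p : ZMod m) * a)) := by
  rw [coset_sum_unit (fun b => saw b) hpd, saw_dist hpd]
  congr 1; ring

end Pool.Agent.H916R2
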